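import Pool.Agent.TH119.MX.Gal

set_option autoImplicit false
set_option linter.unusedSectionVars false
set_option linter.unusedSimpArgs false

/-!
# Subspaces which are stable under the twists by quadratic characters
-/

open Finset

noncomputable section

namespace Pool.Agent.R917.EC

open Pool.Agent.TH119.MX

/-- the sign of an automorphism on a square root -/
def sgn (σ : RingAut ℂ) (z : ℂ) : ℚ := by
  classical
  exact if σ z = z then 1 else -1

theorem sgn_mul_self (σ : RingAut ℂ) (z : ℂ) : sgn σ z * sgn σ z = 1 := by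
  unfold sgn
  split_ifs <;> norm_num

theorem sgn_smul {z : ℂ} {q : ℚ} (hq : z ^ 2 = q) (σ : RingAut ℂ) : (sgn σ z : ℂ) * z = σ z := by
  have h1 : σ z ^ 2 = z ^ 2 := by
    rw [← map_pow, hq, map_ratCast]
  have h2 : (σ z - z) * (σ z + z) = 0 := by linear_combination h1
  unfold sgn
  rcases mul_eq_zero.1 h2 with h | h
  · rw [sub_eq_zero] at h
    rw [if_pos h, h, Rat.cast_one, one_mul]
  · by_cases h3 : σ z = z
    · rw [if_pos h3, h3, Rat.cast_one, one_mul]
    · rw [if_neg h3, Rat.cast_neg, Rat.cast_one, neg_one_mul]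
      linear_combination -h

/-- the quadratic character -/
def chr {z : ℂ} {q : ℚ} (hq : z ^ 2 = q) (hz : z ≠ 0) : RingAut ℂ →* ℂ where
  toFun σ := (sgn σ z : ℂ)
  map_one' := by
    unfold sgn
    rw [if_pos (by rfl), Rat.cast_one]
  map_mul' σ τ := by
    have h1 := sgn_smul hq (σ * τ)
    have h2 := sgn_smul hq σ
    have h3 := sgn_smul hq τ
    rw [RingAut.mul_apply, ← h3, map_mul, map_ratCast, ← h2] at h1
    have h4 := mul_right_cancel₀ hz (h1.trans (mul_assoc _ _ _).symm)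
    rw [h4, mul_comm]

/-- the rational numbers -/
abbrev RQ : Subfield ℂ := (algebraMap ℚ ℂ).fieldRange

theorem sgn_fix {z : ℂ} (hz : ∀ σ : RingAut ℂ, σ z = z) : ∃ q : ℚ, z = q := by
  by_contra hcon
  have h1 : z ∉ RQ := by
    rintro ⟨q, hq⟩
    exact hcon ⟨q, hq.symm⟩
  obtain ⟨σ, -, h2⟩ := exists_move h1
  exact h2 (hz σ)

variable {M : Type} [Fintype M] [DecidableEq M]

theorem chr_top {δ : M → ℂ} (h0 : ∀ c, δ c ≠ 0) (hq : ∀ c, ∃ q : ℚ, δ c ^ 2 = q)
    (h1 : ∀ c, ¬ ∃ q : ℚ, δ c = q) (h2 : ∀ c d, c ≠ d → ¬ ∃ q : ℚ, δ c * δ d = q)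
    {U : Submodule ℚ ((M → ℚ) × ℚ)}
    (hU : ∀ σ : RingAut ℂ, ∀ v ∈ U, v.2 ≠ 0 → ((fun c => sgn σ (δ c) * v.1 c, v.2) :
      (M → ℚ) × ℚ) ∈ U)
    (hr : ∃ v ∈ U, v.2 ≠ 0) (ha : ∀ c, ∃ v ∈ U, v.1 c ≠ 0) : U = ⊤ := by
  choose q hq using hq
  have hU' : ∀ σ : RingAut ℂ, ∀ v ∈ U, ((fun c => sgn σ (δ c) * v.1 c, v.2) :
      (M → ℚ) × ℚ) ∈ U := by
    intro σ v hv
    by_cases hv2 : v.2 = 0
    · obtain ⟨w, hw, hw2⟩ := hr
      have e1 := hU σ (v + w) (U.add_mem hv hw) (by rwa [Prod.snd_add, hv2, zero_add])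
      have e2 := hU σ w hw hw2
      have e3 := U.sub_mem e1 e2
      convert e3 using 1
      refine Prod.ext ?_ ?_
      · funext c
        simp only [Prod.fst_add, Pi.add_apply, Prod.fst_sub, Pi.sub_apply]
        ring
      · simp
    · exact hU σ v hv hv2
  rw [eq_top_iff]
  intro x _
  by_contra hx
  obtain ⟨φ, hφ2, hφ1⟩ := Submodule.exists_le_ker_of_notMem hx
  have hφ : ∀ v : (M → ℚ) × ℚ, φ v = ∑ c, φ (Pi.single c 1, 0) * v.1 c + φ (0, 1) * v.2 := by
    intro v
    have e1 : v = ∑ c, v.1 c • ((Pi.single c 1, 0) : (M → ℚ) × ℚ) + v.2 • ((0, 1) :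
        (M → ℚ) × ℚ) := by
      refine Prod.ext ?_ ?_
      · funext d
        simp [Prod.fst_sum, Finset.sum_apply, Pi.single_apply]
      · simp [Prod.snd_sum]
    conv_lhs => rw [e1]
    rw [map_add, map_sum]
    simp only [map_smul, smul_eq_mul]
    congr 1
    · exact Finset.sum_congr rfl fun c _ => mul_comm _ _
    · exact mul_comm _ _
  let X : Option M → (RingAut ℂ →* ℂ) := fun o => o.elim 1 (fun c => chr (hq c) (h0 c))
  have hX : Function.Injective X := by
    have k1 : ∀ c, X (some c) ≠ X none := by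
      intro c h
      apply h1 c
      refine sgn_fix fun σ => ?_
      have e1 := congrArg (fun f : RingAut ℂ →* ℂ => f σ) h
      change (sgn σ (δ c) : ℂ) = 1 at e1
      rw [← sgn_smul (hq c) σ, e1, one_mul]
    rintro (_ | c) (_ | d) h
    · rfl
    · exact absurd h.symm (k1 d)
    · exact absurd h (k1 c)
    · by_contra hne
      have hcd : c ≠ d := fun e => hne (by rw [e])
      apply h2 c d hcd
      refine sgn_fix fun σ => ?_
      have e1 := congrArg (fun f : RingAut ℂ →* ℂ => f σ) h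
      change (sgn σ (δ c) : ℂ) = (sgn σ (δ d) : ℂ) at e1
      have e2 : (sgn σ (δ d) : ℂ) * (sgn σ (δ d) : ℂ) = 1 := by
        exact_mod_cast sgn_mul_self σ (δ d)
      rw [map_mul, ← sgn_smul (hq c) σ, ← sgn_smul (hq d) σ, e1]
      linear_combination (δ c * δ d) * e2
  have hli := (linearIndependent_monoidHom (RingAut ℂ) ℂ).comp X hX
  have key : ∀ v ∈ U, (∀ c, φ (Pi.single c 1, 0) * v.1 c = 0) ∧ φ (0, 1) * v.2 = 0 := by
    intro v hv
    have e1 : ∀ σ : RingAut ℂ, ∑ c, φ (Pi.single c 1, 0) * (sgn σ (δ c) * v.1 c) +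
        φ (0, 1) * v.2 = 0 := by
      intro σ
      have e2 := LinearMap.mem_ker.1 (hφ1 (hU' σ v hv))
      rw [hφ] at e2
      exact e2
    have e3 := Fintype.linearIndependent_iff.1 hli
      (fun o => o.elim ((φ (0, 1) * v.2 : ℚ) : ℂ) (fun c => ((φ (Pi.single c 1, 0) * v.1 c : ℚ) :
        ℂ))) (by
        funext σ
        rw [Finset.sum_apply, Fintype.sum_option]
        have e4 := congrArg (fun r : ℚ => (r : ℂ)) (e1 σ)
        simp only [Rat.cast_add, Rat.cast_sum, Rat.cast_zero] at e4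
        change ((φ (0, 1) * v.2 : ℚ) : ℂ) * 1 + ∑ c, ((φ (Pi.single c 1, 0) * v.1 c : ℚ) : ℂ) *
          (sgn σ (δ c) : ℂ) = 0
        rw [← e4, mul_one, add_comm]
        congr 1
        refine Finset.sum_congr rfl fun c _ => ?_
        push_cast
        ring)
    refine ⟨fun c => ?_, ?_⟩
    · have e5 := e3 (some c)
      change ((φ (Pi.single c 1, 0) * v.1 c : ℚ) : ℂ) = 0 at e5
      exact_mod_cast e5
    · have e5 := e3 none
      change ((φ (0, 1) * v.2 : ℚ) : ℂ) = 0 at e5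
      exact_mod_cast e5
  apply hφ2
  rw [hφ]
  have f1 : ∀ c, φ (Pi.single c 1, 0) = 0 := by
    intro c
    obtain ⟨v, hv, hv1⟩ := ha c
    exact (mul_eq_zero.1 ((key v hv).1 c)).resolve_right hv1
  have f2 : φ (0, 1) = 0 := by
    obtain ⟨v, hv, hv1⟩ := hr
    exact (mul_eq_zero.1 (key v hv).2).resolve_right hv1
  simp [f1, f2]

end Pool.Agent.R917.EC
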