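import Pool.Agent.R917.EC.Rep
import Pool.Agent.R917.EC.Chr
import Pool.Agent.R917.BX.End

set_option autoImplicit false
set_option linter.unusedSectionVars false
set_option linter.unusedSimpArgs false

/-!
# Replicas of the elements of the Lie algebra of the parabolic group
-/

open Module Function TensorProduct Matrix

noncomputable section

namespace Pool.Agent.R917.EC

open Pool.Agent.Y102 Pool.Agent.W516.DR Pool.Agent.H204R3.GP Pool.Agent.W516.KC
  Pool.Agent.H204R3.SP Pool.Agent.TH119.MX Pool.Agent.R917.OM Pool.Agent.Y102.AbVar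

section Blk

variable {g n s : ℕ}

/-- Block triangular matrices. -/
structure Blk (M : Matrix (RI g n s) (RI g n s) ℂ) (α : Matrix (Fin (2 * g)) (Fin (2 * g)) ℂ)
    (β γ : ℂ) : Prop where
  jj : ∀ j j', M (Sum.inl j) (Sum.inl j') = α j j'
  ji : ∀ j i, M (Sum.inl j) (Sum.inr (Sum.inr i)) = 0
  lj : ∀ l j, M (Sum.inr (Sum.inl l)) (Sum.inl j) = 0
  ll : ∀ l l', M (Sum.inr (Sum.inl l)) (Sum.inr (Sum.inl l')) = if l = l' then β else 0
  li : ∀ l i, M (Sum.inr (Sum.inl l)) (Sum.inr (Sum.inr i)) = 0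
  ii : ∀ i i', M (Sum.inr (Sum.inr i)) (Sum.inr (Sum.inr i')) = if i = i' then γ else 0

variable {M M' : Matrix (RI g n s) (RI g n s) ℂ} {α α' : Matrix (Fin (2 * g)) (Fin (2 * g)) ℂ}
  {β γ β' γ' : ℂ}

theorem mul_RI (x y : RI g n s) : (M * M') x y = ∑ j, M x (Sum.inl j) * M' (Sum.inl j) y +
    (∑ l, M x (Sum.inr (Sum.inl l)) * M' (Sum.inr (Sum.inl l)) y +
      ∑ i, M x (Sum.inr (Sum.inr i)) * M' (Sum.inr (Sum.inr i)) y) := by
  rw [Matrix.mul_apply, Fintype.sum_sum_type, Fintype.sum_sum_type]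

theorem Blk.mul (h : Blk M α β γ) (h' : Blk M' α' β' γ') :
    Blk (M * M') (α * α') (β * β') (γ * γ') where
  jj := fun j j' => by
    rw [mul_RI, Matrix.mul_apply]
    simp [h.jj, h'.jj, h'.lj, h.ji]
  ji := fun j i => by
    rw [mul_RI]
    simp [h.ji, h'.ji, h'.li]
  lj := fun l j => by
    rw [mul_RI]
    simp [h.lj, h'.lj, h.li]
  ll := fun l l' => by
    rw [mul_RI]
    simp [h.lj, h.ll, h'.ll, h.li, ite_and]
  li := fun l i => by
    rw [mul_RI]
    simp [h.lj, h'.li, h.li]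
  ii := fun i i' => by
    rw [mul_RI]
    simp [h'.ji, h'.li, h.ii, h'.ii]

theorem Blk.add (h : Blk M α β γ) (h' : Blk M' α' β' γ') :
    Blk (M + M') (α + α') (β + β') (γ + γ') where
  jj := fun j j' => by rw [Matrix.add_apply, h.jj, h'.jj, Matrix.add_apply]
  ji := fun j i => by rw [Matrix.add_apply, h.ji, h'.ji, add_zero]
  lj := fun l j => by rw [Matrix.add_apply, h.lj, h'.lj, add_zero]
  ll := fun l l' => by
    rw [Matrix.add_apply, h.ll, h'.ll]
    split_ifs <;> simp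
  li := fun l i => by rw [Matrix.add_apply, h.li, h'.li, add_zero]
  ii := fun i i' => by
    rw [Matrix.add_apply, h.ii, h'.ii]
    split_ifs <;> simp

theorem Blk.one (a : ℂ) : Blk (a • (1 : Matrix (RI g n s) (RI g n s) ℂ)) (a • 1) a a where
  jj := fun j j' => by simp [Matrix.one_apply]
  ji := fun j i => by simp [Matrix.one_apply]
  lj := fun l j => by simp [Matrix.one_apply]
  ll := fun l l' => by simp [Matrix.one_apply]
  li := fun l i => by simp [Matrix.one_apply]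
  ii := fun i i' => by simp [Matrix.one_apply]

theorem Blk.aeval (h : Blk M α β γ) (Q : Polynomial ℂ) :
    Blk (Polynomial.aeval M Q) (Polynomial.aeval α Q) (Q.eval β) (Q.eval γ) := by
  induction Q using Polynomial.induction_on with
  | C a =>
    rw [Polynomial.aeval_C, Polynomial.aeval_C, Polynomial.eval_C, Polynomial.eval_C,
      Algebra.algebraMap_eq_smul_one, Algebra.algebraMap_eq_smul_one]
    exact Blk.one a
  | add p q hp hq =>
    rw [map_add, map_add, Polynomial.eval_add, Polynomial.eval_add]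
    exact hp.add hq
  | monomial n a ih =>
    have e1 : (Polynomial.C a * Polynomial.X ^ (n + 1) : Polynomial ℂ) =
        (Polynomial.C a * Polynomial.X ^ n) * Polynomial.X := by
      rw [pow_succ, mul_assoc]
    have e2 : ∀ x : ℂ, (Polynomial.C a * Polynomial.X ^ n * Polynomial.X).eval x =
        (Polynomial.C a * Polynomial.X ^ n).eval x * x := fun x => by
      rw [Polynomial.eval_mul, Polynomial.eval_X]
    rw [e1, map_mul (Polynomial.aeval M), map_mul (Polynomial.aeval α), Polynomial.aeval_X,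
      Polynomial.aeval_X, e2, e2]
    exact ih.mul h

theorem Blk.triple {M₁ M₂ M₃ : Matrix (RI g n s) (RI g n s) ℂ}
    {α₁ α₃ : Matrix (Fin (2 * g)) (Fin (2 * g)) ℂ} {β₁ β₂ γ₂ γ₃ : ℂ}
    (h₁ : Blk M₁ α₁ β₁ 0) (h₂ : Blk M₂ 0 β₂ γ₂) (h₃ : Blk M₃ α₃ 0 γ₃) : M₁ * M₂ * M₃ = 0 := by
  have e1 : ∀ x j, (M₁ * M₂) x (Sum.inl j) = 0 := by
    intro x j
    rw [mul_RI]
    rcases x with x | x | x <;>
      simp [h₂.jj, h₂.lj, h₁.ji, h₁.li, h₁.ii, h₁.lj]
  have e2 : ∀ x i, (M₁ * M₂) x (Sum.inr (Sum.inr i)) = 0 := by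
    intro x i
    rw [mul_RI]
    rcases x with x | x | x <;>
      simp [h₂.ji, h₂.li, h₁.ji, h₁.li, h₁.ii, h₁.lj]
  ext x y
  rw [mul_RI]
  simp only [e1, e2, zero_mul, Finset.sum_const_zero, zero_add, add_zero, Matrix.zero_apply]
  refine Finset.sum_eq_zero fun l _ => ?_
  rcases y with y | y | y
  · rw [h₃.lj, mul_zero]
  · rw [h₃.ll, ite_self, mul_zero]
  · rw [h₃.li, mul_zero]

end Blk

section Pi

variable {R : Type} [Ring R] [Algebra ℂ R] {M : Type} [Fintype M] [DecidableEq M]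
  (z : M → R) (δ q : M → ℂ)

/-- the sign -/
def sg (b : Bool) : ℂ := if b then 1 else -1

/-- the projectors -/
def pi : Option (M × Bool) → R
  | none => 1 - ∑ c, (q c)⁻¹ • (z c * z c)
  | some (c, b) => (1 / 2 : ℂ) • ((q c)⁻¹ • (z c * z c) + (sg b * (δ c)⁻¹) • z c)

/-- the eigenvalues -/
def ev (a : M → ℂ) : Option (M × Bool) → ℂ
  | none => 0
  | some (c, b) => sg b * (a c * δ c)

variable {z δ q}

theorem sum_pi : ∑ t, pi z δ q t = 1 := by
  rw [Fintype.sum_option, Fintype.sum_prod_type]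
  have e1 : ∀ c, ∑ b, pi z δ q (some (c, b)) = (q c)⁻¹ • (z c * z c) := by
    intro c
    rw [Fintype.sum_bool]
    simp only [pi, sg]
    simp only [if_true, Bool.false_eq_true, if_false, neg_mul, one_mul, neg_smul]
    rw [← smul_add]
    have : (q c)⁻¹ • (z c * z c) + (δ c)⁻¹ • z c + ((q c)⁻¹ • (z c * z c) + -((δ c)⁻¹ • z c)) =
        (2 : ℂ) • ((q c)⁻¹ • (z c * z c)) := by
      rw [two_smul]
      abel
    rw [this, smul_smul]
    norm_num
  simp only [e1]
  simp only [pi]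
  rw [sub_add_cancel]

theorem pi_eig (hzz : ∀ c d, c ≠ d → z c * z d = 0) (hz3 : ∀ c, z c * z c * z c = q c • z c)
    (hq : ∀ c, δ c ^ 2 = q c) (hδ : ∀ c, δ c ≠ 0) (a : M → ℂ) (r : ℂ) (t : Option (M × Bool)) :
    (r • (1 : R) + ∑ c, a c • z c) * pi z δ q t = (r + ev δ a t) • pi z δ q t := by
  have hq0 : ∀ c, q c ≠ 0 := fun c => by
    rw [← hq]
    exact pow_ne_zero 2 (hδ c)
  have h1 : ∀ c, (∑ d, a d • z d) * z c = a c • (z c * z c) := by
    intro c
    rw [Finset.sum_mul, Finset.sum_eq_single c]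
    · rw [smul_mul_assoc]
    · intro d _ hd
      rw [smul_mul_assoc, hzz d c hd, smul_zero]
    · intro h
      exact absurd (Finset.mem_univ c) h
  have h2 : ∀ c, (∑ d, a d • z d) * (z c * z c) = (a c * q c) • z c := by
    intro c
    rw [← mul_assoc, h1, smul_mul_assoc, hz3, smul_smul]
  rw [add_mul, smul_mul_assoc, one_mul, add_smul]
  congr 1
  rcases t with _ | ⟨c, b⟩
  · simp only [pi, ev, zero_smul]
    rw [mul_sub, mul_one, Finset.mul_sum, sub_eq_zero]
    refine Finset.sum_congr rfl fun c _ => ?_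
    rw [mul_smul_comm, h2, smul_smul]
    congr 1
    field_simp [hq0 c]
  · simp only [pi, ev]
    rw [mul_smul_comm, mul_add, mul_smul_comm, mul_smul_comm, h1, h2, smul_smul, smul_smul,
      smul_smul, smul_add, smul_add, smul_smul, smul_smul, smul_smul, smul_smul, add_comm]
    have hb : sg b * sg b = 1 := by
      unfold sg
      split_ifs <;> norm_num
    have hd := hδ c
    congr 1
    · congr 1
      rw [← hq]
      field_simp
    · congr 1
      have e1 : (q c)⁻¹ * (a c * q c) = a c := by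
        field_simp [hq0 c]
      have e2 : sg b * (a c * δ c) * (1 / 2) * (sg b * (δ c)⁻¹) = (sg b * sg b) * (a c * (1 / 2))
          := by
        field_simp
      rw [e1, e2, hb]
      ring

theorem eq_of_pi {X Y : R} (h : ∀ t, X * pi z δ q t = Y * pi z δ q t) : X = Y := by
  calc X = X * ∑ t, pi z δ q t := by rw [sum_pi, mul_one]
    _ = Y * ∑ t, pi z δ q t := by
      rw [Finset.mul_sum, Finset.mul_sum]
      exact Finset.sum_congr rfl fun t _ => h t
    _ = Y := by rw [sum_pi, mul_one]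

end Pi

section Tup

variable {g : ℕ} {A : AbVar g} {n s : ℕ}

/-- the complex matrix in terms of rows -/
def rm (T : Module.End ℚ A.H1) : Matrix (Fin (2 * g)) (Fin (2 * g)) ℂ :=
  Matrix.of fun j j' => ((T (eb A j) j' : ℚ) : ℂ)

theorem rm_mul (T S : Module.End ℚ A.H1) : rm (T * S) = rm S * rm T := by
  ext j j'
  rw [Matrix.mul_apply]
  have h1 := lin_sum (S := ℚ) ((LinearMap.proj j' : (Fin (2 * g) → ℚ) →ₗ[ℚ] ℚ) ∘ₗ T) (S (eb A j))
  change (((T (S (eb A j))) j' : ℚ) : ℂ) = ∑ k, ((S (eb A j) k : ℚ) : ℂ) * ((T (eb A k) j' : ℚ) : ℂ)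
  have h2 : T (S (eb A j)) j' = ∑ k, S (eb A j) k * T (eb A k) j' := h1
  rw [h2]
  push_cast
  rfl

theorem rm_add (T S : Module.End ℚ A.H1) : rm (T + S) = rm T + rm S := by
  ext j j'
  change (((T (eb A j) + S (eb A j)) j' : ℚ) : ℂ) = ((T (eb A j) j' : ℚ) : ℂ) +
    ((S (eb A j) j' : ℚ) : ℂ)
  rw [← Rat.cast_add]
  rfl

theorem rm_smul (a : ℚ) (T : Module.End ℚ A.H1) : rm (a • T) = (a : ℂ) • rm T := by
  ext j j'
  change (((a • T (eb A j)) j' : ℚ) : ℂ) = (a : ℂ) * ((T (eb A j) j' : ℚ) : ℂ)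
  rw [← Rat.cast_mul]
  rfl

theorem rm_zero : rm (0 : Module.End ℚ A.H1) = 0 := by
  ext j j'
  change (((0 : ℚ)) : ℂ) = 0
  rw [Rat.cast_zero]

theorem rm_one : rm (1 : Module.End ℚ A.H1) = 1 := by
  ext j j'
  change (((eb A j : Fin (2 * g) → ℚ) j' : ℚ) : ℂ) = _
  unfold eb
  rw [Pi.single_apply, Matrix.one_apply]
  split_ifs with h1 h2 h2
  · exact Rat.cast_one
  · exact absurd h1.symm h2
  · exact absurd h2.symm h1
  · exact Rat.cast_zero

theorem rm_sum {ι : Type} (t : Finset ι) (f : ι → Module.End ℚ A.H1) :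
    rm (∑ c ∈ t, f c) = ∑ c ∈ t, rm (f c) := by
  classical
  induction t using Finset.induction_on with
  | empty => rw [Finset.sum_empty, Finset.sum_empty, rm_zero]
  | insert a t ha ih => rw [Finset.sum_insert ha, Finset.sum_insert ha, rm_add, ih]

theorem blk_mt (L : Tup A n s) : Blk (OM.mt L) (rm (op L)) ((2 * L.2.1 : ℚ) : ℂ) 0 where
  jj := fun j j' => rfl
  ji := fun j i => by
    change algebraMap ℚ ℂ 0 = 0
    rw [map_zero]
  lj := fun l j => by
    change algebraMap ℚ ℂ 0 = 0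
    rw [map_zero]
  ll := fun l l' => by
    change algebraMap ℚ ℂ (if l = l' then 2 * L.2.1 else 0) = _
    split_ifs
    · rfl
    · rw [map_zero]
  li := fun l i => by
    change algebraMap ℚ ℂ 0 = 0
    rw [map_zero]
  ii := fun i i' => by
    change algebraMap ℚ ℂ 0 = _
    rw [map_zero, ite_self]

theorem exists_lam1 : ∃ lam : ℂ →ₗ[ℚ] ℚ, lam 1 = 1 := by
  obtain ⟨G, hG⟩ := exists_lin (F := ℚ) (v := fun _ : Unit => (1 : ℂ)) (by
    rw [linearIndependent_unique_iff]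
    exact one_ne_zero) (fun _ => (1 : ℚ))
  exact ⟨G, hG ()⟩

/-- The tuple of a block triangular matrix. -/
theorem exists_tup {Y : Matrix (RI g n s) (RI g n s) ℂ} {X : Module.End ℚ A.H1} {r : ℚ}
    (hY : Blk Y (rm (X + r • 1)) ((2 * r : ℚ) : ℂ) 0) {lam : ℂ →ₗ[ℚ] ℚ} (hlam : lam 1 = 1) :
    ∃ L : Tup A n s, L.1 = X ∧ L.2.1 = r ∧ OM.mt L = Y.map (lamF lam) := by
  have hl : ∀ x : ℚ, lamF lam (x : ℂ) = (x : ℂ) := by
    intro x
    rw [lamF_apply]
    have h1 : lam (x : ℂ) = x := by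
      have h2 : (x : ℂ) = x • (1 : ℂ) := by rw [Algebra.smul_def]; simp
      rw [h2, map_smul, hlam, smul_eq_mul, mul_one]
    rw [h1]
  have h1 : ∀ l : Fin s, ∃ u : A.H1, ∀ j, A.om u (eb A j) =
      lam (Y (Sum.inl j) (Sum.inr (Sum.inl l))) := by
    intro l
    obtain ⟨u, hu⟩ := A.om_surj (f := ∑ j, lam (Y (Sum.inl j) (Sum.inr (Sum.inl l))) •
      (LinearMap.proj j : (Fin (2 * g) → ℚ) →ₗ[ℚ] ℚ))
    refine ⟨u, fun j => ?_⟩
    rw [hu]
    change (∑ k, lam (Y (Sum.inl k) (Sum.inr (Sum.inl l))) •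
      (LinearMap.proj k : (Fin (2 * g) → ℚ) →ₗ[ℚ] ℚ)) (Pi.single j 1 : Fin (2 * g) → ℚ) = _
    rw [LinearMap.sum_apply, Finset.sum_eq_single j]
    · simp
    · intro k _ hk
      simp [hk]
    · intro h
      exact absurd (Finset.mem_univ j) h
  choose u hu using h1
  refine ⟨(X, r, Sum.elim (fun i j => lam (Y (Sum.inr (Sum.inr i)) (Sum.inl j))) u,
    fun i l => lam (Y (Sum.inr (Sum.inr i)) (Sum.inr (Sum.inl l)))), rfl, rfl, ?_⟩
  ext x y
  rw [Matrix.map_apply]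
  rcases x with j | l | i <;> rcases y with j' | l' | i'
  · rw [hY.jj]
    exact (hl _).symm
  · change algebraMap ℚ ℂ (A.om (u l') (eb A j)) = _
    rw [hu]
    rfl
  · rw [hY.ji, map_zero]
    exact map_zero (algebraMap ℚ ℂ)
  · rw [hY.lj, map_zero]
    exact map_zero (algebraMap ℚ ℂ)
  · rw [hY.ll]
    change algebraMap ℚ ℂ (if l = l' then 2 * r else 0) = _
    split_ifs
    · exact (hl _).symm
    · rw [map_zero, map_zero]
  · rw [hY.li, map_zero]
    exact map_zero (algebraMap ℚ ℂ)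
  · rfl
  · rfl
  · rw [hY.ii, ite_self, map_zero]
    exact map_zero (algebraMap ℚ ℂ)

/-- **Replicas of tuples.** -/
theorem replica {M : Type} [Fintype M] [DecidableEq M]
    {H : Set (Matrix (RI g n s) (RI g n s) ℂ)} (hH : AlgGrp QQ H)
    {L : Tup A n s} {Z : M → Module.End ℚ A.H1} {δ : M → ℂ} {q : M → ℚ}
    (hq : ∀ c, δ c ^ 2 = q c) (irr : ∀ c, ¬ ∃ x : ℚ, δ c = x)
    (hZZ : ∀ c d, c ≠ d → Z c * Z d = 0) (hZ3 : ∀ c, Z c * Z c * Z c = q c • Z c)
    {a : M → ℚ} (hr : L.2.1 ≠ 0) (hL1 : L.1 = ∑ c, a c • Z c)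
    (hS : ∀ k, Stab H k (OM.mt L)) (σ : RingAut ℂ) :
    ∃ L' : Tup A n s, (∀ k, Stab H k (OM.mt L')) ∧
      L'.1 = ∑ c, (sgn σ (δ c) * a c) • Z c ∧ L'.2.1 = L.2.1 := by
  classical
  obtain ⟨r, hrr⟩ : ∃ r : ℚ, r = L.2.1 := ⟨_, rfl⟩
  have hr0 : r ≠ 0 := by rwa [hrr]
  have hδ : ∀ c, δ c ≠ 0 := fun c h => irr c ⟨0, by rw [h, Rat.cast_zero]⟩
  let z : M → Matrix (Fin (2 * g)) (Fin (2 * g)) ℂ := fun c => rm (Z c)
  have hzz : ∀ c d, c ≠ d → z c * z d = 0 := fun c d hcd => by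
    change rm (Z c) * rm (Z d) = 0
    rw [← rm_mul, hZZ d c hcd.symm, rm_zero]
  have hz3 : ∀ c, z c * z c * z c = (q c : ℂ) • z c := fun c => by
    change rm (Z c) * rm (Z c) * rm (Z c) = (q c : ℂ) • rm (Z c)
    rw [← rm_mul, ← rm_mul, ← mul_assoc, hZ3, rm_smul]
  have hA : ∀ a' : M → ℚ, rm (∑ c, a' c • Z c + r • (1 : Module.End ℚ A.H1)) =
      (r : ℂ) • 1 + ∑ c, (a' c : ℂ) • z c := by
    intro a'
    rw [rm_add, rm_smul, rm_one, rm_sum, add_comm]
    congr 1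
    exact Finset.sum_congr rfl fun c _ => rm_smul _ _
  let sH : Finset ℂ := Finset.univ.image fun t : Option (M × Bool) =>
    (r : ℂ) + ev δ (fun c => (a c : ℂ)) t
  have hmemH : ∀ x ∈ sH, ∃ t, x = (r : ℂ) + ev δ (fun c => (a c : ℂ)) t := by
    intro x hx
    obtain ⟨t, -, ht⟩ := Finset.mem_image.1 hx
    exact ⟨t, ht.symm⟩
  have hirr : ∀ y : ℚ, y ≠ r → (y : ℂ) ∉ sH := by
    intro y hy hmem
    obtain ⟨t, ht⟩ := hmemH _ hmem
    rcases t with _ | ⟨c, b⟩
    · simp only [ev, add_zero] at ht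
      exact hy (by exact_mod_cast ht)
    · simp only [ev] at ht
      by_cases hac : a c = 0
      · rw [hac] at ht
        apply hy
        have : (y : ℂ) = r := by rw [ht]; simp
        exact_mod_cast this
      · apply irr c
        unfold sg at ht
        split_ifs at ht
        · refine ⟨(y - r) / a c, ?_⟩
          have h0 : (a c : ℂ) ≠ 0 := by exact_mod_cast hac
          push_cast
          rw [eq_div_iff h0, ht]
          ring
        · refine ⟨(r - y) / a c, ?_⟩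
          have h0 : (a c : ℂ) ≠ 0 := by exact_mod_cast hac
          push_cast
          rw [eq_div_iff h0, ht]
          ring
  let S : Finset ℂ := insert ((0 : ℚ) : ℂ) (insert ((2 * r : ℚ) : ℂ) sH)
  have h2r : (2 * r : ℚ) ≠ r := fun h => hr0 (by linarith)
  have hn1 : ((2 * r : ℚ) : ℂ) ∉ sH := hirr _ h2r
  have hn2 : ((0 : ℚ) : ℂ) ∉ insert ((2 * r : ℚ) : ℂ) sH := by
    intro h
    rcases Finset.mem_insert.1 h with h | h
    · have : (0 : ℚ) = 2 * r := by exact_mod_cast h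
      exact hr0 (by linarith)
    · exact hirr 0 hr0.symm h
  have hS0 : Lagrange.nodal S id = (Polynomial.X - Polynomial.C ((0 : ℚ) : ℂ)) *
      ((Polynomial.X - Polynomial.C ((2 * r : ℚ) : ℂ)) * Lagrange.nodal sH id) := by
    rw [Lagrange.nodal_insert_eq_nodal hn2, Lagrange.nodal_insert_eq_nodal hn1]
    rfl
  have hopL : op L = ∑ c, a c • Z c + r • (1 : Module.End ℚ A.H1) := by
    unfold op
    rw [hL1, hrr]
  have hB := blk_mt L
  rw [hopL, hA, ← hrr] at hB
  have hpe := pi_eig hzz hz3 hq hδ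
  have hnH : Polynomial.aeval ((r : ℂ) • (1 : Matrix (Fin (2 * g)) (Fin (2 * g)) ℂ) +
      ∑ c, (a c : ℂ) • z c) (Lagrange.nodal sH id) = 0 := by
    refine eq_of_pi (z := z) (δ := δ) (q := fun c => (q c : ℂ)) fun t => ?_
    rw [aeval_mul_eig (hpe (fun c => (a c : ℂ)) r t), zero_mul]
    have h3 : (r : ℂ) + ev δ (fun c => (a c : ℂ)) t ∈ sH :=
      Finset.mem_image.2 ⟨t, Finset.mem_univ _, rfl⟩
    have h4 := Lagrange.eval_nodal_at_node (v := (id : ℂ → ℂ)) h3
    rw [id] at h4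
    rw [h4, zero_smul]
  have hM : Polynomial.aeval (OM.mt L) (Lagrange.nodal S id) = 0 := by
    rw [hS0, mul_comm (Polynomial.X - Polynomial.C ((2 * r : ℚ) : ℂ)), ← mul_assoc, map_mul,
      map_mul]
    have e1 := hB.aeval (Polynomial.X - Polynomial.C ((0 : ℚ) : ℂ))
    have e2 := hB.aeval (Lagrange.nodal sH id)
    have e3 := hB.aeval (Polynomial.X - Polynomial.C ((2 * r : ℚ) : ℂ))
    rw [hnH] at e2
    have f1 : (Polynomial.X - Polynomial.C ((0 : ℚ) : ℂ) : Polynomial ℂ).eval 0 = 0 := by simp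
    have f3 : (Polynomial.X - Polynomial.C ((2 * r : ℚ) : ℂ) : Polynomial ℂ).eval
        ((2 * r : ℚ) : ℂ) = 0 := by simp
    rw [f1] at e1
    rw [f3] at e3
    exact Blk.triple e1 e2 e3
  have hS0mem : ((0 : ℚ) : ℂ) ∈ S := Finset.mem_insert_self _ _
  have hS2mem : ((2 * r : ℚ) : ℂ) ∈ S := Finset.mem_insert_of_mem (Finset.mem_insert_self _ _)
  have hSHmem : ∀ x ∈ sH, x ∈ S := fun x hx =>
    Finset.mem_insert_of_mem (Finset.mem_insert_of_mem hx)
  let Q : Polynomial ℂ := Lagrange.interpolate S id (fun x => σ x)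
  have hQ : ∀ x ∈ S, Q.eval x = σ x := fun x hx =>
    Lagrange.eval_interpolate_at_node (fun x => σ x) (Function.injective_id.injOn) hx
  have hSt : ∀ k, Stab H k (Polynomial.aeval (OM.mt L) Q) := fun k =>
    stab_aeval ⟨_, hS0mem⟩ hM ((σ : ℂ →+* ℂ) : ℂ →+ ℂ) hQ (hS k)
  have hσr : ∀ x : ℚ, σ (x : ℂ) = x := fun x => map_ratCast σ x
  have hBQ := hB.aeval Q
  rw [hQ _ hS2mem, hσr, show (0 : ℂ) = ((0 : ℚ) : ℂ) from Rat.cast_zero.symm, hQ _ hS0mem, hσr,
    Rat.cast_zero] at hBQ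
  have hAQ : Polynomial.aeval ((r : ℂ) • (1 : Matrix (Fin (2 * g)) (Fin (2 * g)) ℂ) +
      ∑ c, (a c : ℂ) • z c) Q = rm (∑ c, (sgn σ (δ c) * a c) • Z c +
        r • (1 : Module.End ℚ A.H1)) := by
    rw [hA]
    refine eq_of_pi (z := z) (δ := δ) (q := fun c => (q c : ℂ)) fun t => ?_
    rw [aeval_mul_eig (hpe (fun c => (a c : ℂ)) r t), hpe (fun c => ((sgn σ (δ c) * a c : ℚ) : ℂ)),
      hQ _ (hSHmem _ (Finset.mem_image.2 ⟨t, Finset.mem_univ _, rfl⟩)), map_add, hσr]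
    congr 2
    rcases t with _ | ⟨c, b⟩
    · exact map_zero σ
    · simp only [ev]
      rw [map_mul, map_mul, hσr, ← sgn_smul (hq c) σ]
      have e5 : σ (sg b) = sg b := by
        unfold sg
        split_ifs
        · exact map_one σ
        · rw [map_neg, map_one]
      rw [e5]
      push_cast
      ring
  rw [hAQ] at hBQ
  obtain ⟨lam, hlam⟩ := exists_lam1
  obtain ⟨L', e1, e2, e3⟩ := exists_tup hBQ hlam
  refine ⟨L', fun k => ?_, e1, by rw [e2, hrr]⟩
  rw [e3]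
  exact hH.stab_map (lamF lam) (hSt k)

end Tup

end Pool.Agent.R917.EC
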