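import Pool.Agent.R917.EC.Gou2
import Pool.Agent.R917.BX.End

set_option autoImplicit false
set_option linter.unusedSectionVars false
set_option linter.unusedSimpArgs false

/-!
# Abelian varieties which are isogenous to products of elliptic curves
-/

open Module Function TensorProduct Matrix

noncomputable section

namespace Pool.Agent.R917.EC

open Pool.Agent.Y102 Pool.Agent.W516.DR Pool.Agent.H204R3.GP Pool.Agent.W516.KC
  Pool.Agent.H204R3.SP Pool.Agent.TH119.MX Pool.Agent.R917.OM Pool.Agent.Y102.AbVar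

variable {g : ℕ} {A : AbVar g}

theorem exists_om {x : A.H1} (hx : x ≠ 0) {U : Submodule ℚ A.H1} (hxU : x ∈ U)
    (hU : ∀ f, ∀ u ∈ U, A.cmpE f JJ u ∈ U) : ∃ y ∈ U, A.om y x ≠ 0 := by
  by_contra hcon
  push Not at hcon
  have h1 : A.E (Complex.I • A.per x) (A.per x) = 0 := by
    apply exists_sep
    intro f
    rw [← om_cmp]
    exact hcon _ (hU f x hxU)
  have hne : A.per x ≠ 0 := by
    intro h
    apply hx
    apply A.per_inj
    rw [h, map_zero]
  have h2 := A.E_pos hne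
  rw [A.E_anti, h1, neg_zero] at h2
  exact lt_irrefl _ h2

theorem det_ne {u u' : Fin 2 → ℚ} (hu : u ≠ 0) (h : ∀ a : ℚ, u' ≠ a • u) :
    u 0 * u' 1 - u 1 * u' 0 ≠ 0 := by
  intro hD
  by_cases h0 : u 0 = 0
  · have h1 : u 1 ≠ 0 := by
      intro h1
      apply hu
      funext i
      fin_cases i
      · exact h0
      · exact h1
    apply h (u' 1 / u 1)
    rw [h0, zero_mul, zero_sub, neg_eq_zero] at hD
    have h2 := (mul_eq_zero.1 hD).resolve_left h1
    funext i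
    fin_cases i
    · simp [h0, h2]
    · simp [h1]
  · apply h (u' 0 / u 0)
    funext i
    fin_cases i
    · simp [h0]
    · simp
      field_simp
      linarith

theorem exists_coord {u u' : Fin 2 → ℚ} (hu : u ≠ 0) (h : ∀ a : ℚ, u' ≠ a • u)
    (z : Fin 2 → ℚ) : ∃ α β : ℚ, z = α • u + β • u' := by
  have hD := det_ne hu h
  refine ⟨(z 0 * u' 1 - z 1 * u' 0) / (u 0 * u' 1 - u 1 * u' 0),
    (u 0 * z 1 - u 1 * z 0) / (u 0 * u' 1 - u 1 * u' 0), ?_⟩
  funext i
  fin_cases i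
  · change z 0 = _ / _ * u 0 + _ / _ * u' 0
    rw [div_mul_eq_mul_div, div_mul_eq_mul_div, ← add_div, eq_div_iff hD]
    ring
  · change z 1 = _ / _ * u 1 + _ / _ * u' 1
    rw [div_mul_eq_mul_div, div_mul_eq_mul_div, ← add_div, eq_div_iff hD]
    ring

/-- The data of a product of powers of elliptic curves. -/
structure EP (A : AbVar g) (C : Type) where
  b : C → (Fin 2 → ℚ) →ₗ[ℚ] A.H1
  p : C → A.H1 →ₗ[ℚ] (Fin 2 → ℚ)
  pb : ∀ c v, p c (b c v) = v
  mem : ∀ c, (b c ∘ₗ p c : Module.End ℚ A.H1) ∈ A.EA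
  ho : ∀ c d, c ≠ d → ∀ Q : M2, (∃ F : (Fin g → ℂ) →ₗ[ℂ] (Fin g → ℂ), ∀ w,
    F (A.per w) = A.per ((b d ∘ₗ Matrix.toLin' Q ∘ₗ p c) w)) → Q = 0
  inj : ∀ X : Module.End ℚ A.H1, (∀ Q ∈ A.EA, X * Q = Q * X) → (∀ c v, p c (X (b c v)) = 0) →
    X = 0

theorem hodge_lin {Q : Module.End ℚ A.H1} (hQ : Q ∈ A.EA) :
    ∃ F : (Fin g → ℂ) →ₗ[ℂ] (Fin g → ℂ), ∀ w, F (A.per w) = A.per (Q w) := by
  obtain ⟨F, hF⟩ := A.hodge_end (A.mem_EA.1 hQ)
  exact ⟨F, fun w => hF w⟩

/-- A map which is not injective on a plane vanishes on it. -/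
theorem line_raw {b : (Fin 2 → ℚ) →ₗ[ℚ] A.H1} {p : A.H1 →ₗ[ℚ] (Fin 2 → ℚ)}
    (hpb : ∀ v, p (b v) = v) (hmem : (b ∘ₗ p : Module.End ℚ A.H1) ∈ A.EA)
    {T : Module.End ℚ A.H1} (hT : T ∈ A.EA) {v : Fin 2 → ℚ} (hv : v ≠ 0) (h : T (b v) = 0)
    (v' : Fin 2 → ℚ) : T (b v') = 0 := by
  let U : Submodule ℚ A.H1 := LinearMap.ker T ⊓ LinearMap.ker ((b ∘ₗ p : Module.End ℚ A.H1) - 1)
  have hU : ∀ u, u ∈ U ↔ T u = 0 ∧ b (p u) = u := by
    intro u
    change T u = 0 ∧ b (p u) - u = 0 ↔ _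
    rw [sub_eq_zero]
  have hx : b v ∈ U := by
    rw [hU, hpb]
    exact ⟨h, rfl⟩
  have hJ : ∀ f, ∀ u ∈ U, A.cmpE f JJ u ∈ U := by
    intro f u hu
    rw [hU] at hu ⊢
    have e1 := A.NA_comm (A.MA_le_NA (A.J_mem f)) hT
    have e2 := A.NA_comm (A.MA_le_NA (A.J_mem f)) hmem
    have e3 := congrArg (fun T : Module.End ℚ A.H1 => T u) e1
    have e4 := congrArg (fun T : Module.End ℚ A.H1 => T u) e2
    simp only [Module.End.mul_apply] at e3 e4
    constructor
    · rw [← e3, hu.1, map_zero]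
    · change (b ∘ₗ p) _ = _
      rw [← e4]
      congr 1
      exact hu.2
  have hbv : b v ≠ 0 := by
    intro h0
    apply hv
    rw [← hpb v, h0, map_zero]
  obtain ⟨y, hy, hyx⟩ := exists_om hbv hx hJ
  rw [hU] at hy
  have hind : ∀ a : ℚ, p y ≠ a • v := by
    intro a ha
    apply hyx
    have h3 : y = a • b v := by
      rw [← hy.2, ha, map_smul]
    have h4 : A.om (b v) (b v) = 0 := by
      have h5 := A.om_anti (b v) (b v)
      linarith
    rw [h3, map_smul, LinearMap.smul_apply, h4, smul_zero]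
  obtain ⟨α, β, e⟩ := exists_coord hv hind v'
  rw [e, map_add, map_smul, map_smul, hy.2, map_add, map_smul, map_smul, h, hy.1, smul_zero,
    smul_zero, add_zero]

namespace EP

variable {C : Type} (S : EP A C)

/-- the projector -/
def pr (c : C) : Module.End ℚ A.H1 := S.b c ∘ₗ S.p c

theorem pr_apply (c : C) (v : A.H1) : S.pr c v = S.b c (S.p c v) := rfl

/-- the extension of a matrix -/
def up (c d : C) (Q : M2) : Module.End ℚ A.H1 := S.b d ∘ₗ Matrix.toLin' Q ∘ₗ S.p c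

theorem up_apply (c d : C) (Q : M2) (v : A.H1) : S.up c d Q v = S.b d (Q *ᵥ S.p c v) := rfl

theorem ho' {c d : C} (hcd : c ≠ d) {Q : M2} (h : S.up c d Q ∈ A.EA) : Q = 0 :=
  S.ho c d hcd Q (hodge_lin h)

theorem b_inj {c : C} {v : Fin 2 → ℚ} (h : S.b c v = 0) : v = 0 := by
  rw [← S.pb c v, h, map_zero]

theorem mat_ext {Q Q' : M2} (h : ∀ v, Q *ᵥ v = Q' *ᵥ v) : Q = Q' := by
  ext i j
  have h1 := congrFun (h (Pi.single j 1)) i
  rw [Matrix.mulVec_single_one, Matrix.mulVec_single_one] at h1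
  exact h1

theorem line {c d : C} {Q : M2} (hQ : S.up c d Q ∈ A.EA) {v : Fin 2 → ℚ} (hv : v ≠ 0)
    (h : Q *ᵥ v = 0) : Q = 0 := by
  refine mat_ext fun v' => ?_
  have h1 := line_raw (S.pb c) (S.mem c) hQ hv (by rw [up_apply, S.pb, h, map_zero]) v'
  rw [up_apply, S.pb] at h1
  rw [S.b_inj h1, Matrix.zero_mulVec]

/-- The matrix of an endomorphism in the components. -/
def xi : Module.End ℚ A.H1 →ₗ[ℚ] (C → M2) where
  toFun X c := LinearMap.toMatrix' (S.p c ∘ₗ X ∘ₗ S.b c)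
  map_add' X Y := by
    funext c
    rw [Pi.add_apply, ← map_add]
    congr 1
    ext v
    simp
  map_smul' a X := by
    funext c
    rw [Pi.smul_apply, RingHom.id_apply, ← map_smul]
    congr 1
    ext v
    simp

theorem xi_mulVec (X : Module.End ℚ A.H1) (c : C) (v : Fin 2 → ℚ) :
    S.xi X c *ᵥ v = S.p c (X (S.b c v)) :=
  LinearMap.toMatrix'_mulVec (S.p c ∘ₗ X ∘ₗ S.b c) v

/-- commuting with all endomorphisms -/
def Cm (X : Module.End ℚ A.H1) : Prop := ∀ Q ∈ A.EA, X * Q = Q * X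

theorem _root_.Pool.Agent.R917.EC.Cm_of_NA {X : Module.End ℚ A.H1} (hX : X ∈ A.NA) : Cm X :=
  fun _ hQ => A.NA_comm hX hQ

variable {X Y : Module.End ℚ A.H1}

theorem Cm.mul (hX : Cm X) (hY : Cm Y) : Cm (X * Y) := fun Q hQ => by
  rw [mul_assoc, hY Q hQ, ← mul_assoc, hX Q hQ, mul_assoc]

theorem apply_b (hX : Cm X) (c : C) (v : Fin 2 → ℚ) : X (S.b c v) = S.b c (S.xi X c *ᵥ v) := by
  have h1 := congrArg (fun T : Module.End ℚ A.H1 => T (S.b c v)) (hX _ (S.mem c))
  simp only [Module.End.mul_apply, LinearMap.comp_apply] at h1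
  rw [S.pb] at h1
  rw [xi_mulVec]
  exact h1

theorem p_apply (hX : Cm X) (c : C) (w : A.H1) : S.p c (X w) = S.xi X c *ᵥ S.p c w := by
  have h1 := congrArg (fun T : Module.End ℚ A.H1 => T w) (hX _ (S.mem c))
  simp only [Module.End.mul_apply, LinearMap.comp_apply] at h1
  have h2 := congrArg (S.p c) h1
  rw [S.pb] at h2
  rw [← h2, xi_mulVec]

theorem xi_mul (hX : Cm X) (hY : Cm Y) (c : C) : S.xi (X * Y) c = S.xi X c * S.xi Y c := by
  refine mat_ext fun v => ?_
  rw [← Matrix.mulVec_mulVec, xi_mulVec, Module.End.mul_apply, S.apply_b hY, S.p_apply hX, S.pb]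

theorem xi_lb (hX : Cm X) (hY : Cm Y) (c : C) :
    S.xi (X * Y - Y * X) c = lb (S.xi X c) (S.xi Y c) := by
  rw [map_sub, Pi.sub_apply, S.xi_mul hX hY, S.xi_mul hY hX]
  rfl

theorem xi_inj (hX : Cm X) (hY : Cm Y) (h : ∀ c, S.xi X c = S.xi Y c) : X = Y := by
  rw [← sub_eq_zero]
  refine S.inj _ (fun Q hQ => by rw [sub_mul, mul_sub, hX Q hQ, hY Q hQ]) fun c v => ?_
  rw [LinearMap.sub_apply, map_sub, ← xi_mulVec, ← xi_mulVec, h, sub_self]

theorem xi_tz (hX : X ∈ A.NA) (c : C) : tz (S.xi X c) := by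
  have hC := Cm_of_NA hX
  have hs := A.NA_skew hX
  have he : ∀ i : Fin 2, (Pi.single i 1 : Fin 2 → ℚ) ≠ 0 := by
    intro i h
    have h1 := congrFun h i
    rw [Pi.single_eq_same] at h1
    exact one_ne_zero h1
  have hom0 : ∀ x : A.H1, A.om x x = 0 := fun x => by
    have h5 := A.om_anti x x
    linarith
  -- the form is not zero on the plane
  have h01 : A.om (S.b c (Pi.single 0 1)) (S.b c (Pi.single 1 1)) ≠ 0 := by
    intro h0
    obtain ⟨y, hy, hyx⟩ := exists_om (x := S.b c (Pi.single 0 1))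
      (fun h => he 0 (S.b_inj h)) (U := LinearMap.ker (S.pr c - 1)) (by
        rw [LinearMap.mem_ker, LinearMap.sub_apply, pr_apply, S.pb]
        exact sub_self _) (fun f u hu => by
        rw [LinearMap.mem_ker, LinearMap.sub_apply, sub_eq_zero] at hu ⊢
        have e2 := A.NA_comm (A.MA_le_NA (A.J_mem f)) (S.mem c)
        have e4 := congrArg (fun T : Module.End ℚ A.H1 => T u) e2
        simp only [Module.End.mul_apply] at e4
        change (S.b c ∘ₗ S.p c) _ = _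
        rw [← e4]
        exact congrArg _ hu)
    rw [LinearMap.mem_ker, LinearMap.sub_apply, sub_eq_zero, pr_apply] at hy
    change S.b c (S.p c y) = y at hy
    apply hyx
    have h2 : S.p c y = S.p c y 0 • Pi.single 0 1 + S.p c y 1 • Pi.single 1 1 := by
      funext i
      fin_cases i <;> simp
    rw [← hy, h2, map_add, map_smul, map_smul, map_add, map_smul, map_smul, LinearMap.add_apply,
      LinearMap.smul_apply, LinearMap.smul_apply, hom0, A.om_anti, h0]
    simp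
  have h1 := hs (S.b c (Pi.single 0 1)) (S.b c (Pi.single 1 1))
  rw [S.apply_b hC, S.apply_b hC] at h1
  have h2 : ∀ v : Fin 2 → ℚ, v = v 0 • Pi.single 0 1 + v 1 • Pi.single 1 1 := by
    intro v
    funext i
    fin_cases i <;> simp
  rw [h2 (S.xi X c *ᵥ Pi.single 0 1), h2 (S.xi X c *ᵥ Pi.single 1 1)] at h1
  simp only [map_add, map_smul, LinearMap.add_apply, LinearMap.smul_apply, hom0, smul_eq_mul,
    mul_zero, add_zero, zero_add, Matrix.mulVec_single_one] at h1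
  have h3 : (S.xi X c 0 0 + S.xi X c 1 1) *
      A.om (S.b c (Pi.single 0 1)) (S.b c (Pi.single 1 1)) = 0 := by
    have h4 := h1
    simp only [Matrix.col_apply] at h4
    linear_combination h4
  have h5 := (mul_eq_zero.1 h3).resolve_right h01
  unfold tz
  linarith

end EP

end Pool.Agent.R917.EC
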