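import Pool.Agent.R917.EC.Ell
import Pool.Agent.R917.EC.Blk

set_option autoImplicit false
set_option linter.unusedSectionVars false
set_option linter.unusedSimpArgs false

/-!
# The components without complex multiplication
-/

open Module Function TensorProduct Matrix

noncomputable section

namespace Pool.Agent.R917.EC

open Pool.Agent.Y102 Pool.Agent.W516.DR Pool.Agent.H204R3.GP Pool.Agent.W516.KC
  Pool.Agent.H204R3.SP Pool.Agent.TH119.MX Pool.Agent.R917.OM Pool.Agent.Y102.AbVar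

variable {g : ℕ} {A : AbVar g}

namespace EP

variable {C : Type} [Finite C] (S : EP A C)

/-- The components without complex multiplication. -/
def NN : Set C := {c | ∀ Q, S.up c c Q ∈ A.EA → ∃ a : ℚ, Q = a • (1 : M2)}

theorem up_one (c : C) : S.up c c 1 ∈ A.EA := by
  have h1 : S.up c c 1 = S.b c ∘ₗ S.p c := by
    refine LinearMap.ext fun v => ?_
    rw [up_apply, Matrix.one_mulVec]
    rfl
  rw [h1]
  exact S.mem c

theorem up_sub (c d : C) (Q Q' : M2) : S.up c d (Q - Q') = S.up c d Q - S.up c d Q' := by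
  refine LinearMap.ext fun v => ?_
  rw [LinearMap.sub_apply, up_apply, up_apply, up_apply, Matrix.sub_mulVec, map_sub]

theorem up_smul (c d : C) (a : ℚ) (Q : M2) : S.up c d (a • Q) = a • S.up c d Q := by
  refine LinearMap.ext fun v => ?_
  rw [LinearMap.smul_apply, up_apply, up_apply, Matrix.smul_mulVec, map_smul]

theorem lb_of_up {X : Module.End ℚ A.H1} (hX : Cm X) {c : C} {Q : M2} (hQ : S.up c c Q ∈ A.EA) :
    lb (S.xi X c) Q = 0 := by
  have h1 := hX _ hQ
  refine mat_ext fun v => ?_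
  have h2 := congrArg (fun T : Module.End ℚ A.H1 => S.p c (T (S.b c v))) h1
  simp only [Module.End.mul_apply] at h2
  rw [up_apply, S.pb, S.p_apply hX, S.pb, S.apply_b hX, up_apply, S.pb, S.pb] at h2
  unfold lb
  rw [Matrix.sub_mulVec, ← Matrix.mulVec_mulVec, ← Matrix.mulVec_mulVec, h2, sub_self,
    Matrix.zero_mulVec]

theorem exists_D {c : C} (hc : c ∉ S.NN) : ∃ D : M2, tz D ∧ D ≠ 0 ∧ S.up c c D ∈ A.EA := by
  have h1 : ∃ Q, S.up c c Q ∈ A.EA ∧ ¬ ∃ a : ℚ, Q = a • (1 : M2) := by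
    by_contra hcon
    push Not at hcon
    apply hc
    intro Q hQ
    obtain ⟨a, ha⟩ := hcon Q hQ
    exact ⟨a, ha⟩
  obtain ⟨Q, hQ, hQ1⟩ := h1
  refine ⟨Q - ((Q 0 0 + Q 1 1) / 2) • 1, ?_, ?_, ?_⟩
  · unfold tz
    simp
    ring
  · intro h0
    exact hQ1 ⟨_, sub_eq_zero.1 h0⟩
  · rw [up_sub, up_smul]
    exact A.EA.sub_mem hQ (A.EA.smul_mem _ (S.up_one c))

theorem up_comm {c d : C} {P : M2} {X : Module.End ℚ A.H1} (hX : Cm X)
    (h : P * S.xi X c = S.xi X d * P) : X * S.up c d P = S.up c d P * X := by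
  refine LinearMap.ext fun v => ?_
  rw [Module.End.mul_apply, Module.End.mul_apply, up_apply, up_apply, S.apply_b hX, S.p_apply hX,
    Matrix.mulVec_mulVec, Matrix.mulVec_mulVec, h]

theorem up_mem {𝔥 : Submodule ℚ (Module.End ℚ A.H1)} (h : A.Full 𝔥) {c d : C} {P : M2}
    (hP : ∀ X ∈ 𝔥, P * S.xi X c = S.xi X d * P) : S.up c d P ∈ A.EA := by
  intro X hX
  exact h.comm _ (fun Y hY => S.up_comm (Cm_of_NA (h.le hY)) (hP Y hY)) X (A.LA_le_NA hX)

theorem gd {𝔥 : Submodule ℚ (Module.End ℚ A.H1)} (h : A.Full 𝔥) :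
    Gd (𝔥.map S.xi) S.NN where
  tr := by
    rintro _ ⟨X, hX, rfl⟩ c
    exact S.xi_tz (h.le hX) c
  br := by
    rintro _ ⟨X, hX, rfl⟩ _ ⟨Y, hY, rfl⟩
    refine ⟨X * Y - Y * X, h.br X hX Y hY, ?_⟩
    funext c
    exact S.xi_lb (Cm_of_NA (h.le hX)) (Cm_of_NA (h.le hY)) c
  sc := fun c hc P hP => hc P (S.up_mem h fun X hX => hP _ ⟨X, hX, rfl⟩)
  se := by
    intro c _ u hu hu1
    let U : Submodule ℚ A.H1 := Submodule.span ℚ {S.b c u}
    obtain ⟨U', hU', hUU'⟩ := h.semi U (by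
      intro X hX w hw
      obtain ⟨t, rfl⟩ := Submodule.mem_span_singleton.1 hw
      obtain ⟨a, ha⟩ := hu1 _ ⟨X, hX, rfl⟩
      rw [map_smul, S.apply_b (Cm_of_NA (h.le hX)), ha, map_smul]
      exact U.smul_mem _ (U.smul_mem _ (Submodule.mem_span_singleton_self _)))
    have hmemU : ∀ w, w ∈ U ↔ ∃ t : ℚ, t • S.b c u = w := fun w =>
      Submodule.mem_span_singleton
    have hinf : ∀ w, w ∈ U → w ∈ U' → w = 0 := fun w h1 h2 =>
      (Submodule.disjoint_def.1 hUU'.disjoint) w h1 h2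
    obtain ⟨w, hw⟩ : ∃ w : Fin 2 → ℚ, ∀ a : ℚ, w ≠ a • u := by
      by_contra hcon
      push Not at hcon
      obtain ⟨a, ha⟩ := hcon (Pi.single 0 1)
      obtain ⟨b, hb⟩ := hcon (Pi.single 1 1)
      have a0 := congrFun ha 0
      have a1 := congrFun ha 1
      have b0 := congrFun hb 0
      have b1 := congrFun hb 1
      simp at a0 a1 b0 b1
      rcases a1 with a1 | a1
      · rw [a1, zero_mul] at a0
        exact one_ne_zero a0
      · rw [a1, mul_zero] at b1
        exact one_ne_zero b1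
    have hdec : S.b c w ∈ U ⊔ U' := by
      rw [hUU'.sup_eq_top]
      exact Submodule.mem_top
    obtain ⟨x, hx, y, hy, hxy⟩ := Submodule.mem_sup.1 hdec
    obtain ⟨t, ht⟩ := (hmemU x).1 hx
    have hy1 : y = S.b c (w - t • u) := by
      rw [map_sub, map_smul, ← hxy, ht]
      abel
    refine ⟨w - t • u, fun a ha => ?_, ?_⟩
    · apply hw (a + t)
      rw [add_smul, ← ha]
      abel
    · rintro _ ⟨X, hX, rfl⟩
      have hXC := Cm_of_NA (h.le hX)
      have hind : ∀ a : ℚ, w - t • u ≠ a • u := fun a ha => by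
        apply hw (a + t)
        rw [add_smul, ← ha]
        abel
      obtain ⟨α, β, e⟩ := exists_coord hu hind (S.xi X c *ᵥ (w - t • u))
      have h1 : X y ∈ U' := hU' X hX y hy
      rw [hy1, S.apply_b hXC, e, map_add, map_smul, map_smul, ← hy1] at h1
      have h2 : α • S.b c u ∈ U' := by
        have h3 := U'.sub_mem h1 (U'.smul_mem β hy)
        rwa [add_sub_cancel_right] at h3
      have h4 := hinf _ ((hmemU _).2 ⟨α, rfl⟩) h2
      rw [smul_eq_zero] at h4
      rcases h4 with h4 | h4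
      · refine ⟨β, ?_⟩
        rw [e, h4, zero_smul, zero_add]
      · exact absurd (S.b_inj h4) hu
  ho := fun c _ d _ hcd P hP => S.ho' hcd (S.up_mem h fun X hX => hP _ ⟨X, hX, rfl⟩)
  cm := by
    rintro c hc _ ⟨X, hX, rfl⟩ _ ⟨Y, hY, rfl⟩
    obtain ⟨D, hD, hD0, hDE⟩ := S.exists_D hc
    obtain ⟨a, ha⟩ := comm_of_sp hD (S.xi_tz (h.le hX) c) hD0
      (S.lb_of_up (Cm_of_NA (h.le hX)) hDE)
    obtain ⟨b, hb⟩ := comm_of_sp hD (S.xi_tz (h.le hY) c) hD0
      (S.lb_of_up (Cm_of_NA (h.le hY)) hDE)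
    rw [ha, hb, lb_smul_left, lb_smul_right]
    unfold lb
    rw [sub_self, smul_zero, smul_zero]

end EP

end Pool.Agent.R917.EC
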