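import Pool.Agent.R917.EC.Ell3

set_option autoImplicit false
set_option linter.unusedSectionVars false
set_option linter.unusedSimpArgs false

/-!
# The lifts of the Lie algebra of the Hodge classes
-/

open Module Function TensorProduct Matrix

noncomputable section

namespace Pool.Agent.R917.EC

open Pool.Agent.Y102 Pool.Agent.W516.DR Pool.Agent.H204R3.GP Pool.Agent.W516.KC
  Pool.Agent.H204R3.SP Pool.Agent.TH119.MX Pool.Agent.R917.OM Pool.Agent.Y102.AbVar

variable {g : ℕ} {A : AbVar g} {n s : ℕ}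

namespace EP

variable {C : Type} [Finite C] (S : EP A C)

section Lift

variable {𝔤 : Submodule ℚ (Tup A n s)} {d : Dt g n s}

/-- Lifts without weight of one component. -/
theorem lift_single (h : Lg 𝔤 d) {c : C} (hc : c ∈ S.NN) {x : M2} (hx : tz x) :
    ∃ L ∈ 𝔤, L.2.1 = 0 ∧ S.xi L.1 c = x ∧ ∀ e, e ≠ c → S.xi L.1 e = 0 := by
  have hG := S.gd h.full
  have hbr : ∀ x y : M2, tz x → tz y → ∃ L ∈ 𝔤, L.2.1 = 0 ∧ S.xi L.1 c = lb x y ∧
      ∀ e, e ≠ c → S.xi L.1 e = 0 := by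
    intro x y hx hy
    obtain ⟨_, ⟨_, ⟨L, hL, rfl⟩, rfl⟩, h1, h2⟩ := hG.single hc hx
    obtain ⟨_, ⟨_, ⟨L', hL', rfl⟩, rfl⟩, h3, h4⟩ := hG.single hc hy
    have e1 : S.xi (OM.br L L').1 = fun e => lb (S.xi L.1 e) (S.xi L'.1 e) := by
      funext e
      exact S.xi_lb (Cm_of_NA (h.na L hL)) (Cm_of_NA (h.na L' hL')) e
    refine ⟨OM.br L L', h.br L hL L' hL', rfl, ?_, fun e he => ?_⟩
    · rw [e1]
      change lb (S.xi L.1 c) (S.xi L'.1 c) = _
      change S.xi L.1 c = x at h1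
      change S.xi L'.1 c = y at h3
      rw [h1, h3]
    · rw [e1]
      change lb (S.xi L.1 e) (S.xi L'.1 e) = _
      have h5 : S.xi L.1 e = 0 := h2 e he
      rw [h5]
      unfold lb
      rw [zero_mul, mul_zero, sub_zero]
  obtain ⟨L₁, m₁, a₁, b₁, c₁⟩ := hbr Hh E tz_H tz_E
  obtain ⟨L₂, m₂, a₂, b₂, c₂⟩ := hbr Hh F tz_H tz_F
  obtain ⟨L₃, m₃, a₃, b₃, c₃⟩ := hbr E F tz_E tz_F
  refine ⟨(x 0 1 / 2) • L₁ + (-(x 1 0) / 2) • L₂ + x 0 0 • L₃,
    𝔤.add_mem (𝔤.add_mem (𝔤.smul_mem _ m₁) (𝔤.smul_mem _ m₂)) (𝔤.smul_mem _ m₃), ?_, ?_, ?_⟩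
  · simp only [Prod.snd_add, Prod.fst_add, Prod.smul_snd, Prod.smul_fst, a₁, a₂, a₃, smul_zero,
      add_zero]
  · simp only [Prod.fst_add, Prod.smul_fst, map_add, map_smul, Pi.add_apply, Pi.smul_apply, b₁,
      b₂, b₃]
    rw [lb_HE, lb_HF, lb_EF, smul_smul, smul_smul]
    conv_rhs => rw [eq_EFH hx]
    congr 2
    · congr 1
      ring
    · congr 1
      ring
  · intro e he
    simp only [Prod.fst_add, Prod.smul_fst, map_add, map_smul, Pi.add_apply, Pi.smul_apply,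
      c₁ e he, c₂ e he, c₃ e he, smul_zero, add_zero]

/-- Lifts without weight of the components without complex multiplication. -/
theorem lift_NN (h : Lg 𝔤 d) (y : C → M2) (hy : ∀ c, tz (y c)) :
    ∃ L ∈ 𝔤, L.2.1 = 0 ∧ (∀ c ∈ S.NN, S.xi L.1 c = y c) ∧ ∀ c, c ∉ S.NN → S.xi L.1 c = 0 := by
  classical
  have := Fintype.ofFinite C
  have h1 : ∀ c : C, ∃ L ∈ 𝔤, L.2.1 = 0 ∧ (c ∈ S.NN → S.xi L.1 c = y c) ∧
      (c ∉ S.NN → S.xi L.1 c = 0) ∧ ∀ e, e ≠ c → S.xi L.1 e = 0 := by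
    intro c
    by_cases hc : c ∈ S.NN
    · obtain ⟨L, m, a, b, e⟩ := S.lift_single h hc (hy c)
      exact ⟨L, m, a, fun _ => b, fun h => absurd hc h, e⟩
    · exact ⟨0, 𝔤.zero_mem, rfl, fun h => absurd h hc, fun _ => by
        rw [Prod.fst_zero, map_zero, Pi.zero_apply], fun e _ => by
        rw [Prod.fst_zero, map_zero, Pi.zero_apply]⟩
  choose L m a b b' e using h1
  have hs : ∀ c, S.xi (∑ c, L c).1 c = S.xi (L c).1 c := by
    intro c
    rw [Prod.fst_sum, map_sum, Finset.sum_apply, Finset.sum_eq_single c]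
    · intro c' _ hc'
      exact e c' c (Ne.symm hc')
    · intro h
      exact absurd (Finset.mem_univ c) h
  refine ⟨∑ c, L c, Submodule.sum_mem _ fun c _ => m c, ?_, fun c hc => ?_, fun c hc => ?_⟩
  · rw [Prod.snd_sum, Prod.fst_sum]
    exact Finset.sum_eq_zero fun c _ => a c
  · rw [hs, b c hc]
  · rw [hs, b' c hc]

end Lift

include S in
/-- **The lifts.** -/
theorem lifts {d : Dt g n s} {H : Set (Matrix (RI g n s) (RI g n s) ℂ)} (hpt : PtM A d H) :
    (∀ X ∈ A.NA, ∃ L ∈ gg A n s H, L.1 = X ∧ L.2.1 = 0) ∧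
      ∃ L ∈ gg A n s H, L.1 = 0 ∧ L.2.1 = 1 := by
  classical
  have := Fintype.ofFinite C
  have h : Lg (gg A n s H) d := gg_Lg hpt
  have hgg : ∀ L, L ∈ gg A n s H ↔ L.1 ∈ A.NA ∧ ∀ k, Stab H k (OM.mt L) := fun _ => Iff.rfl
  let M : Type := {c : C // c ∉ S.NN}
  have T : ∀ c : M, S.CMd c.1 := fun c => (S.exists_CMd c.2).some
  -- the coordinates
  have hco : ∀ X ∈ A.NA, ∀ c : M, ∃ a : ℚ, S.xi X c.1 = a • (T c).D := fun X hX c =>
    comm_of_sp (T c).tr (S.xi_tz hX c.1) (T c).ne (S.lb_of_up (Cm_of_NA hX) (T c).mem)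
  -- the elements `Z`
  have hZ : ∀ c : M, ∃ Z ∈ A.NA, S.xi Z = Pi.single c.1 (T c).D := by
    intro c
    have hli : LinearIndependent ℚ (fun c : M => (T c).del) :=
      li_delta (fun c => (T c).del_ne) (fun c => ⟨_, (T c).del_sq⟩)
        (fun c d hcd => (T c).indep (T d) (fun e => hcd (Subtype.ext e)))
    have hli2 : LinearIndependent ℚ (fun c : M => (T c).ρ) := by
      rw [Fintype.linearIndependent_iff] at hli ⊢
      intro a ha c
      have h1 := hli (fun c => a c / (T c).q) (by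
        have h2 := congrArg (fun r : ℝ => (-Complex.I) * (r : ℂ)) ha
        simp only [Complex.ofReal_sum, Complex.ofReal_zero, mul_zero, Finset.mul_sum] at h2
        rw [← h2]
        refine Finset.sum_congr rfl fun c _ => ?_
        have h3 := (T c).del_sq
        have h4 := (T c).rho_ne
        have h5 := (T c).del_ne
        have h6 : (T c).del * (T c).ρ = Complex.I := by
          unfold CMd.del
          rw [div_mul_cancel₀ _ h4]
        have h7 : ((T c).q : ℂ) ≠ 0 := by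
          rw [← h3]
          exact pow_ne_zero 2 h5
        rw [Algebra.smul_def, Algebra.smul_def]
        change ((a c / (T c).q : ℚ) : ℂ) * (T c).del = (-Complex.I) * ((((a c : ℚ) : ℝ) *
          (T c).ρ : ℝ) : ℂ)
        push_cast
        rw [div_mul_eq_mul_div, div_eq_iff h7, ← h3]
        have h8 : Complex.I * Complex.I = -1 := Complex.I_mul_I
        linear_combination (Complex.I * (a c : ℂ) * (T c).del) * h6 +
          ((a c : ℂ) * (T c).del) * h8)
      have h7 : ((T c).q : ℂ) ≠ 0 := by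
        rw [← (T c).del_sq]
        exact pow_ne_zero 2 (T c).del_ne
      have h8 : (T c).q ≠ 0 := by exact_mod_cast h7
      exact (div_eq_zero_iff.1 (h1 c)).resolve_right h8
    obtain ⟨f, hf⟩ := exists_lin hli2 (Pi.single c (1 : ℚ))
    have hJ := A.MA_le_NA (A.J_mem f)
    obtain ⟨L, hL, -, h1, h2⟩ := S.lift_NN h (S.xi (A.cmpE f JJ)) (fun c => S.xi_tz hJ c)
    refine ⟨A.cmpE f JJ - L.1, A.NA.sub_mem hJ (h.na L hL), ?_⟩
    rw [map_sub]
    funext e
    rw [Pi.sub_apply]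
    by_cases he : e ∈ S.NN
    · rw [h1 e he, sub_self, Pi.single_eq_of_ne]
      rintro rfl
      exact c.2 he
    · rw [h2 e he, sub_zero, (T ⟨e, he⟩).J f, hf ⟨e, he⟩]
      by_cases hec : e = c.1
      · subst hec
        rw [Pi.single_eq_same, Pi.single_eq_same, one_smul]
      · rw [Pi.single_eq_of_ne hec, Pi.single_eq_of_ne (fun e' => hec (congrArg Subtype.val e')),
          zero_smul]
  choose Z hZ1 hZ2 using hZ
  have hZC : ∀ c, Cm (Z c) := fun c => Cm_of_NA (hZ1 c)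
  have hC0 : Cm (0 : Module.End ℚ A.H1) := fun Q _ => by rw [zero_mul, mul_zero]
  have hZZ : ∀ c d, c ≠ d → Z c * Z d = 0 := by
    intro c d hcd
    refine S.xi_inj (Cm.mul (hZC c) (hZC d)) hC0 fun e => ?_
    rw [S.xi_mul (hZC c) (hZC d), hZ2, hZ2, map_zero, Pi.zero_apply]
    by_cases hec : e = c.1
    · rw [Pi.single_eq_of_ne (i := d.1) (fun e' => hcd (Subtype.ext (hec.symm.trans e'))),
        mul_zero]
    · rw [Pi.single_eq_of_ne hec, zero_mul]
  have hZ3 : ∀ c, Z c * Z c * Z c = (T c).q • Z c := by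
    intro c
    have hq : Cm ((T c).q • Z c) := Cm_of_NA (A.NA.smul_mem _ (hZ1 c))
    refine S.xi_inj (Cm.mul (Cm.mul (hZC c) (hZC c)) (hZC c)) hq fun e => ?_
    rw [S.xi_mul (Cm.mul (hZC c) (hZC c)) (hZC c), S.xi_mul (hZC c) (hZC c), map_smul,
      Pi.smul_apply, hZ2]
    by_cases hec : e = c.1
    · subst hec
      rw [Pi.single_eq_same, (T c).DD, smul_mul_assoc, one_mul]
    · rw [Pi.single_eq_of_ne hec, mul_zero, smul_zero]
  have hsum : ∀ (a : M → ℚ) (e : C), S.xi (∑ c, a c • Z c) e =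
      if he : e ∉ S.NN then a ⟨e, he⟩ • (T ⟨e, he⟩).D else 0 := by
    intro a e
    rw [map_sum, Finset.sum_apply]
    split_ifs with he
    · refine Finset.sum_eq_zero fun c _ => ?_
      rw [map_smul, Pi.smul_apply, hZ2, Pi.single_eq_of_ne, smul_zero]
      rintro rfl
      exact c.2 he
    · rw [Finset.sum_eq_single (⟨e, he⟩ : M)]
      · rw [map_smul, Pi.smul_apply, hZ2, Pi.single_eq_same]
      · intro c _ hc
        rw [map_smul, Pi.smul_apply, hZ2, Pi.single_eq_of_ne (fun e' => hc (Subtype.ext e'.symm)),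
          smul_zero]
      · intro h
        exact absurd (Finset.mem_univ _) h
  -- the subspace
  let U : Submodule ℚ ((M → ℚ) × ℚ) :=
    { carrier := {v | ∃ L ∈ gg A n s H, L.1 = ∑ c, v.1 c • Z c ∧ L.2.1 = v.2}
      zero_mem' := ⟨0, (gg A n s H).zero_mem, by simp, rfl⟩
      add_mem' := by
        rintro v w ⟨L, hL, h1, h2⟩ ⟨L', hL', h1', h2'⟩
        refine ⟨L + L', (gg A n s H).add_mem hL hL', ?_, ?_⟩
        · rw [Prod.fst_add, h1, h1', ← Finset.sum_add_distrib]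
          refine Finset.sum_congr rfl fun c _ => ?_
          rw [Prod.fst_add, Pi.add_apply, add_smul]
        · rw [Prod.snd_add, Prod.fst_add, h2, h2', Prod.snd_add]
      smul_mem' := by
        rintro t v ⟨L, hL, h1, h2⟩
        refine ⟨t • L, (gg A n s H).smul_mem t hL, ?_, ?_⟩
        · rw [Prod.smul_fst, h1, Finset.smul_sum]
          refine Finset.sum_congr rfl fun c _ => ?_
          rw [Prod.smul_fst, Pi.smul_apply, smul_assoc]
        · rw [Prod.smul_snd, Prod.smul_fst, h2, Prod.smul_snd] }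
  have hmem : ∀ v, v ∈ U ↔ ∃ L ∈ gg A n s H, L.1 = ∑ c, v.1 c • Z c ∧ L.2.1 = v.2 := fun _ =>
    Iff.rfl
  have hNA : ∀ a : M → ℚ, (∑ c, a c • Z c) ∈ A.NA := fun a =>
    Submodule.sum_mem _ fun c _ => A.NA.smul_mem _ (hZ1 c)
  -- elements of the algebra without the components of the first type
  have hin : ∀ L ∈ gg A n s H, (∀ c ∈ S.NN, S.xi L.1 c = 0) → ∀ a : M → ℚ,
      (∀ c : M, S.xi L.1 c.1 = a c • (T c).D) → ((a, L.2.1) : (M → ℚ) × ℚ) ∈ U := by
    intro L hL h1 a h2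
    refine ⟨L, hL, ?_, rfl⟩
    refine S.xi_inj (Cm_of_NA (h.na L hL)) (Cm_of_NA (hNA a)) fun e => ?_
    rw [hsum]
    split_ifs with he
    · exact h1 e he
    · exact h2 ⟨e, he⟩
  have hUtop : U = ⊤ := by
    refine chr_top (δ := fun c : M => (T c).del) (fun c => (T c).del_ne)
      (fun c => ⟨_, (T c).del_sq⟩) (fun c => (T c).irr)
      (fun c d hcd => (T c).indep (T d) (fun e => hcd (Subtype.ext e))) ?_ ?_ ?_
    · rintro σ v ⟨L, hL, h1, h2⟩ hv
      obtain ⟨L', e1, e2, e3⟩ := replica (Z := Z) (δ := fun c : M => (T c).del)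
        (q := fun c => (T c).q) hpt.grp (fun c => (T c).del_sq)
        (fun c => (T c).irr) hZZ hZ3 (a := v.1) (by rw [h2]; exact hv) h1 hL.2 σ
      exact ⟨L', ⟨by rw [e2]; exact hNA _, e1⟩, e2, by rw [e3, h2]⟩
    · obtain ⟨L, hL, h1, h2⟩ := exists_central h
      choose a ha using hco _ (h.na L hL)
      refine ⟨(a, L.2.1), hin L hL (fun c hc => ?_) a ha, h1⟩
      have hG := S.gd h.full
      obtain ⟨t, ht⟩ := hG.sc c hc (S.xi L.1 c) (by
        rintro _ ⟨_, ⟨L', hL', rfl⟩, rfl⟩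
        have e1 := S.xi_mul (Cm_of_NA (h.na L hL)) (Cm_of_NA (h.na L' hL')) c
        have e2 := S.xi_mul (Cm_of_NA (h.na L' hL')) (Cm_of_NA (h.na L hL)) c
        change S.xi L.1 c * S.xi L'.1 c = S.xi L'.1 c * S.xi L.1 c
        rw [← e1, ← e2, h2 L' hL'])
      exact tz_of_scalar (S.xi_tz (h.na L hL) c) ht
    · intro c
      obtain ⟨L, hL, h1⟩ : ∃ L ∈ gg A n s H, S.xi L.1 c.1 ≠ 0 := by
        by_contra hcon
        push Not at hcon
        have h1 : S.up c.1 c.1 E ∈ A.EA := S.up_mem h.full (by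
          rintro _ ⟨L, hL, rfl⟩
          change E * S.xi L.1 c.1 = S.xi L.1 c.1 * E
          rw [hcon L hL, mul_zero, zero_mul])
        exact E_ne (S.line h1 v0_ne (by
          ext i
          fin_cases i <;> simp [E, v0]))
      obtain ⟨L', hL', -, h2, h3⟩ := S.lift_NN h (S.xi L.1) (fun c => S.xi_tz (h.na L hL) c)
      have hL2 := (gg A n s H).sub_mem hL hL'
      choose a ha using hco _ (h.na _ hL2)
      refine ⟨(a, (L - L').2.1), hin _ hL2 (fun e he => ?_) a ha, fun h0 => ?_⟩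
      · rw [Prod.fst_sub, map_sub, Pi.sub_apply, h2 e he, sub_self]
      · have h4 := ha c
        change a c = 0 at h0
        rw [h0, zero_smul, Prod.fst_sub, map_sub, Pi.sub_apply, h3 c.1 c.2, sub_zero] at h4
        exact h1 h4
  constructor
  · intro X hX
    obtain ⟨L, hL, h0, h1, h2⟩ := S.lift_NN h (S.xi X) (fun c => S.xi_tz hX c)
    choose a ha using hco X hX
    have h3 : ((a, 0) : (M → ℚ) × ℚ) ∈ U := by rw [hUtop]; exact Submodule.mem_top
    obtain ⟨L', hL', h4, h5⟩ := (hmem _).1 h3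
    have hLL := (gg A n s H).add_mem hL hL'
    refine ⟨L + L', hLL, ?_, ?_⟩
    · refine S.xi_inj (Cm_of_NA (h.na _ hLL)) (Cm_of_NA hX) fun e => ?_
      rw [Prod.fst_add, h4, map_add, Pi.add_apply, hsum]
      split_ifs with he
      · rw [h1 e he, add_zero]
      · rw [h2 e he, zero_add]
        exact (ha ⟨e, he⟩).symm
    · rw [Prod.snd_add, Prod.fst_add, h0, h5, add_zero]
  · have h3 : ((0, 1) : (M → ℚ) × ℚ) ∈ U := by rw [hUtop]; exact Submodule.mem_top
    obtain ⟨L', hL', h4, h5⟩ := (hmem _).1 h3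
    refine ⟨L', hL', ?_, h5⟩
    rw [h4]
    exact Finset.sum_eq_zero fun c _ => by
      change (0 : ℚ) • Z c = 0
      rw [zero_smul]

end EP

open Pool.Agent.R917.BX in
/-- **The Hodge structure of the 1-motive is in the Lie algebra of the group.** -/
theorem hodge_stab3 {A : AbVarG g} {d : Dt g n s} {H : Set (Matrix (RI g n s) (RI g n s) ℂ)}
    (hpt : PtM A.toAbVar d H) (hd : Good A d)
    {K₁ : IntermediateField ℚ ℂ} [FiniteDimensional ℚ K₁]
    (hu : ∀ p (m : ℕ), IsRat A.toAbVar K₁ (m • pt d p))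
    {C : Type} [Finite C] (S : EP A.toAbVar C) :
    (∀ k, Stab H k (XJ A.toAbVar d)) ∧ ∀ k, Stab H k (XW A.toAbVar d) := by
  have hLg := gg_Lg hpt
  obtain ⟨u⟩ := main2 hLg hu
  obtain ⟨hNA, hW⟩ := S.lifts hpt
  constructor
  · intro k
    refine stab_of_comp fun lam => ?_
    rw [← mt_tJ]
    exact (u.tJ_mem hLg hNA lam).2 k
  · intro k
    refine stab_of_comp fun lam => ?_
    rw [← mt_tW]
    exact (u.tW_mem hLg hd hW lam).2 k

end Pool.Agent.R917.EC
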