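import Pool.Agent.R917.EC.Ell4

set_option autoImplicit false
set_option linter.unusedSectionVars false
set_option linter.unusedSimpArgs false

/-!
# Products of elliptic curves
-/

open Module Function TensorProduct Matrix

noncomputable section

namespace Pool.Agent.R917.EC

open Pool.Agent.Y102 Pool.Agent.W516.DR Pool.Agent.H204R3.GP Pool.Agent.W516.KC
  Pool.Agent.H204R3.SP Pool.Agent.TH119.MX Pool.Agent.R917.OM Pool.Agent.Y102.AbVar

variable {g : ℕ} {A : AbVar g}

theorem EA_mul {P Q : Module.End ℚ A.H1} (hP : P ∈ A.EA) (hQ : Q ∈ A.EA) : P * Q ∈ A.EA := by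
  intro X hX
  rw [← mul_assoc, hP X hX, mul_assoc, hQ X hX, mul_assoc]

/-- A basis of the image of a projector of rank two. -/
theorem exists_bp {P : Module.End ℚ A.H1} (h1 : P * P = P)
    (h2 : finrank ℚ (LinearMap.range P) = 2) :
    ∃ (b : (Fin 2 → ℚ) →ₗ[ℚ] A.H1) (p : A.H1 →ₗ[ℚ] (Fin 2 → ℚ)), (∀ v, p (b v) = v) ∧
      b ∘ₗ p = P := by
  let e : (Fin 2 → ℚ) ≃ₗ[ℚ] LinearMap.range P := LinearEquiv.ofFinrankEq _ _ (by
    rw [h2]
    simp)
  refine ⟨(LinearMap.range P).subtype ∘ₗ e.toLinearMap, e.symm.toLinearMap ∘ₗ P.rangeRestrict,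
    fun v => ?_, ?_⟩
  · have h3 : P.rangeRestrict ((LinearMap.range P).subtype (e v)) = e v := by
      apply Subtype.ext
      obtain ⟨w, hw⟩ := (e v).2
      change P (e v).1 = (e v).1
      rw [← hw]
      exact congrArg (fun T : Module.End ℚ A.H1 => T w) h1
    change e.symm (P.rangeRestrict ((LinearMap.range P).subtype (e v))) = v
    rw [h3, LinearEquiv.symm_apply_apply]
  · refine LinearMap.ext fun v => ?_
    change ((e (e.symm (P.rangeRestrict v))) : A.H1) = P v
    rw [LinearEquiv.apply_symm_apply]
    rfl

theorem mulVec_surj {Q : M2} (h : ∀ v, Q *ᵥ v = 0 → v = 0) (w : Fin 2 → ℚ) :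
    ∃ v, Q *ᵥ v = w := by
  have h1 : Function.Injective Q.toLin' := by
    rw [injective_iff_map_eq_zero]
    intro v hv
    rw [Matrix.toLin'_apply] at hv
    exact h v hv
  obtain ⟨v, hv⟩ := LinearMap.injective_iff_surjective.1 h1 w
  exact ⟨v, by rw [← hv, Matrix.toLin'_apply]⟩

/-- **The data of a product of elliptic curves.** -/
theorem exists_EP {K : Type} [Fintype K] (P : K → Module.End ℚ A.H1) (h1 : ∀ i, P i ∈ A.EA)
    (h2 : ∀ i, P i * P i = P i) (h3 : ∑ i, P i = 1)
    (h4 : ∀ i, finrank ℚ (LinearMap.range (P i)) = 2)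
    (h5 : ∀ i j, i ≠ j → (∃ T ∈ A.EA, P j * T * P i ≠ 0) ∨ ∀ T : Module.End ℚ A.H1,
      (∃ F : (Fin g → ℂ) →ₗ[ℂ] (Fin g → ℂ), ∀ w, F (A.per w) = A.per (T w)) →
        P j * T * P i = 0) :
    ∃ (C : Type) (_ : Finite C), Nonempty (EP A C) := by
  classical
  have hbp := fun i => exists_bp (h2 i) (h4 i)
  choose b p hpb hbp using hbp
  let R : K → K → Prop := fun i j => ∃ T ∈ A.EA, P j * T * P i ≠ 0
  let good : Finset (Finset K) := Finset.univ.filter fun S => ∀ i ∈ S, ∀ j ∈ S, i ≠ j → ¬ R i j
  have hgood : ∀ S, S ∈ good ↔ ∀ i ∈ S, ∀ j ∈ S, i ≠ j → ¬ R i j := fun S => by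
    simp [good]
  obtain ⟨S, hS⟩ : ∃ S, Maximal (· ∈ good) S := by
    refine Finset.exists_maximal ?_
    exact ⟨∅, (hgood ∅).2 (by simp)⟩
  have hSg := (hgood S).1 hS.1
  have hmax : ∀ k, k ∉ S → ∃ c ∈ S, R k c ∨ R c k := by
    intro k hk
    by_contra hcon
    push Not at hcon
    have h6 : insert k S ∈ good := by
      rw [hgood]
      intro i hi j hj hij
      rcases Finset.mem_insert.1 hi with rfl | hi'
      · rcases Finset.mem_insert.1 hj with rfl | hj'
        · exact absurd rfl hij
        · exact (hcon j hj').1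
      · rcases Finset.mem_insert.1 hj with rfl | hj'
        · exact (hcon i hi').2
        · exact hSg i hi' j hj' hij
    have h7 := hS.2 h6 (Finset.subset_insert k S)
    exact hk (h7 (Finset.mem_insert_self k S))
  have hmem : ∀ i, (b i ∘ₗ p i : Module.End ℚ A.H1) ∈ A.EA := fun i => by
    rw [hbp]
    exact h1 i
  have hPb : ∀ i v, P i (b i v) = b i v := fun i v => by
    rw [← hbp i, LinearMap.comp_apply, hpb]
  have hbp' : ∀ i w, b i (p i w) = P i w := fun i w =>
    congrArg (fun T : A.H1 →ₗ[ℚ] A.H1 => T w) (hbp i)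
  have hbinj : ∀ i v, b i v = 0 → v = 0 := fun i v h => by
    rw [← hpb i v, h, map_zero]
  refine ⟨{c : K // c ∈ S}, inferInstance, ⟨⟨fun c => b c.1, fun c => p c.1, fun c => hpb c.1,
    fun c => hmem c.1, ?_, ?_⟩⟩⟩
  · rintro ⟨c, hc⟩ ⟨d, hd⟩ hcd Q hQ
    have hcd' : c ≠ d := fun h => hcd (Subtype.ext h)
    rcases h5 c d hcd' with h | h
    · exact absurd h (hSg c hc d hd hcd')
    · have h6 := h _ hQ
      refine EP.mat_ext fun v => ?_
      have h7 := congrArg (fun T : Module.End ℚ A.H1 => T (b c v)) h6
      simp only [Module.End.mul_apply, LinearMap.zero_apply] at h7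
      rw [hPb] at h7
      change P d (b d (Q *ᵥ p c (b c v))) = 0 at h7
      rw [hPb, hpb] at h7
      rw [hbinj d _ h7, Matrix.zero_mulVec]
  · intro X hX hXS
    have hX0 : ∀ c ∈ S, X * P c = 0 := by
      intro c hc
      refine LinearMap.ext fun w => ?_
      have e1 : X (P c w) = P c (X (P c w)) := by
        have e2 := congrArg (fun T : Module.End ℚ A.H1 => T (P c w)) (hX _ (h1 c))
        simp only [Module.End.mul_apply] at e2
        have e3 : P c (P c w) = P c w :=
          congrArg (fun T : Module.End ℚ A.H1 => T w) (h2 c)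
        rw [e3] at e2
        exact e2
      rw [Module.End.mul_apply, e1, ← hbp c]
      change b c (p c (X (b c (p c w)))) = 0
      rw [hXS ⟨c, hc⟩ (p c w), map_zero]
    have hXk : ∀ k, X * P k = 0 := by
      intro k
      by_cases hk : k ∈ S
      · exact hX0 k hk
      · obtain ⟨c, hc, ⟨T, hT, hT0⟩ | ⟨T, hT, hT0⟩⟩ := hmax k hk
        · -- the map from the plane `k` to the plane `c` is injective
          have hTE : P c * T * P k ∈ A.EA := EA_mul (EA_mul (h1 c) hT) (h1 k)
          have hinj : ∀ v, (P c * T * P k) (b k v) = 0 → v = 0 := by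
            intro v hv
            by_contra hv0
            apply hT0
            have h6 := line_raw (hpb k) (hmem k) hTE hv0 hv
            refine LinearMap.ext fun w => ?_
            have h7 := h6 (p k w)
            simp only [Module.End.mul_apply, LinearMap.zero_apply] at h7 ⊢
            rw [hPb] at h7
            rw [← hbp k]
            exact h7
          have hcom := hX _ hTE
          have h8 : (P c * T * P k) * X = 0 := by
            rw [← hcom, mul_assoc, ← mul_assoc, hX0 c hc, zero_mul]
          refine LinearMap.ext fun w => ?_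
          have e1 : X (P k w) = P k (X (P k w)) := by
            have e2 := congrArg (fun T : Module.End ℚ A.H1 => T (P k w)) (hX _ (h1 k))
            simp only [Module.End.mul_apply] at e2
            have e3 : P k (P k w) = P k w :=
              congrArg (fun T : Module.End ℚ A.H1 => T w) (h2 k)
            rw [e3] at e2
            exact e2
          have e4 : P k (X (P k w)) = b k (p k (X (P k w))) := (hbp' k _).symm
          have e5 : p k (X (P k w)) = 0 := by
            apply hinj
            rw [← e4, ← e1]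
            exact congrArg (fun T : Module.End ℚ A.H1 => T (P k w)) h8
          rw [Module.End.mul_apply, e1, e4, e5, map_zero]
          rfl
        · -- the map from the plane `c` to the plane `k` is surjective
          have hTE : P k * T * P c ∈ A.EA := EA_mul (EA_mul (h1 k) hT) (h1 c)
          let Q : M2 := LinearMap.toMatrix' (p k ∘ₗ (P k * T * P c : Module.End ℚ A.H1) ∘ₗ b c)
          have hQ : ∀ v, b k (Q *ᵥ v) = (P k * T * P c) (b c v) := by
            intro v
            have e1 : Q *ᵥ v = p k ((P k * T * P c) (b c v)) :=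
              LinearMap.toMatrix'_mulVec
                (p k ∘ₗ (P k * T * P c : Module.End ℚ A.H1) ∘ₗ b c) v
            rw [e1]
            rw [hbp']
            have e3 : P k * (P k * T * P c) = P k * T * P c := by
              rw [← mul_assoc, ← mul_assoc, h2]
            exact congrArg (fun T : Module.End ℚ A.H1 => T (b c v)) e3
          have hinj : ∀ v, Q *ᵥ v = 0 → v = 0 := by
            intro v hv
            by_contra hv0
            apply hT0
            have h6 := line_raw (hpb c) (hmem c) hTE hv0 (by rw [← hQ, hv, map_zero])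
            refine LinearMap.ext fun w => ?_
            have h7 := h6 (p c w)
            simp only [Module.End.mul_apply, LinearMap.zero_apply] at h7 ⊢
            rw [hPb] at h7
            rw [← hbp c]
            exact h7
          have h8 : X * (P k * T * P c) = 0 := by
            rw [hX _ hTE, mul_assoc, hX _ (h1 c) |>.symm, hX0 c hc, mul_zero]
          refine LinearMap.ext fun w => ?_
          obtain ⟨v, hv⟩ := mulVec_surj hinj (p k w)
          have e1 : P k w = (P k * T * P c) (b c v) := by
            rw [← hQ, hv, hbp']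
          rw [Module.End.mul_apply, e1]
          exact congrArg (fun T : Module.End ℚ A.H1 => T (b c v)) h8
    calc X = X * ∑ i, P i := by rw [h3, mul_one]
      _ = 0 := by
        rw [Finset.mul_sum]
        exact Finset.sum_eq_zero fun i _ => hXk i

end Pool.Agent.R917.EC
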