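import Pool.Agent.R917.EC.Ell5

set_option autoImplicit false

/-!
# The period conjecture for 1-motives over products of elliptic curves, in terms of torsors

Let `A` be an abelian variety over the field `ℚ̄` of algebraic numbers, with a polarization `φ`. Let
`P_i = exp(u_i)` and `Q_l = φ(exp(v_l))` be algebraic points of `A` and of the dual abelian variety,
`G` the extension of `A` by `G_m^s` given by the `Q_l`, and `M = [ℤ^n → G]` a 1-motive over `ℚ̄` with
the images `e_i ↦ R_i` above `P_i`. The periods of `M` are `2 π i`, the periods and quasi-periods of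
`A`, the abelian integrals `u_i` and the integrals of the second kind `h_k(u_i)`, the periods of the
third kind `∑ k, (h_k(v_l) λ_k - v_lk η_k)`, and the integrals of the third kind `ℓ_il`. The points
`R_i` are algebraic, and this means for the logarithms `ℓ_il` that

  `exp(ℓ_il) = q_il · θ(u_i - v_l) / (θ(u_i) θ(-v_l)) · exp(∑ k, h_k(v_l) u_ik)`, `q_il` algebraic:

the function `z ↦ θ(z - v) / (θ(z) θ(-v)) · exp(∑ k, h_k(v) z_k)` is the pullback of a rational
section, over `ℚ̄`, of the extension of `A` by `G_m` given by `v`. We assume that the arguments of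
the theta functions are not in the divisor of `θ`. So we get all 1-motives over `A`, up to isogeny.

For an elliptic curve these are the integrals of the first, second and third kind, from `O` to an
algebraic point: with the functions of Weierstrass, `u`, `ζ(u)` and
`log (σ(u - v) / (σ(u) σ(v))) + ζ(v) u`, up to the logarithm of an algebraic number.

The motivic Galois group of `M` is the Mumford-Tate group of the mixed Hodge structure `H_1(M)`
(Brylinski, André): the smallest algebraic group over `ℚ` which contains the image of the Deligne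
torus, which acts on the subspaces `I^{p,q}` of `H_1(M, ℂ)` given by Deligne's splitting.

The period conjecture says that the comparison isomorphism is a generic point, over `ℚ̄`, of its
torsor under the motivic Galois group of `M`. A consequence is that this torsor is the smallest
torsor, among the torsors over `ℚ̄` of all algebraic groups `G ⊆ GL(H_B(M))` over `ℚ`, which
contains the comparison isomorphism (in the terminology of André: `Ω^And = Ω^dRB`).

**Theorem.** Let `A` be isogenous to a product of elliptic curves over `ℚ̄` (any elliptic curves,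
with or without complex multiplication, isogenous or not) and `M` any 1-motive over `A`. Then every
algebraic group `G` over `ℚ` with a torsor over `ℚ̄` which contains the comparison isomorphism
contains the Mumford-Tate group of `M`. So `Ω^And = Ω^dRB` for `M` and for all motives generated
by `M`.

There is no condition on the points. For `M = H_1(A)` this is a theorem of Kreutz, Shen and Vial.
For the powers of one elliptic curve without complex multiplication it is contained in
`MP_5d33ca_ag.OneMotivesMumfordTate`; the case of complex multiplication is not, since the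
Mumford-Tate group of `A` then has a torus as a quotient.

## Proof

Let `𝔤` be the space of the rational elements of the Lie algebra of `G`. It contains the rational
components of the matrices `D(c) c⁻¹` (`c` the comparison isomorphism, `D` a derivation of `ℂ` over
`ℚ̄`). So its action on `H_1(A, ℚ)` is semisimple with the commutant `End(A) ⊗ ℚ` (theorem of
Wüstholz), and `𝔤` has a central element of nonzero weight, since `π` is transcendental.

1. Let `E_c` be representatives of the isogeny classes of the curves. The elements of `𝔤` act on the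
planes `H_1(E_c, ℚ)` by matrices `ξ_c` of trace zero plus scalars. The image of `𝔤` contains the
product of the `sl_2` for the `E_c` without complex multiplication (`Gd.single`, a theorem of
Goursat type).

2. Let the `E_c`, for `c` in the set `M`, have complex multiplication by `ℚ(δ_c)`, `δ_c² ∈ ℚ`. The
fields are different. Let `L` in `𝔤` be of weight `r ≠ 0`, with `ξ_c = 0` for `c` not in `M` and
`ξ_c = a_c δ_c` for `c` in `M`. The eigenvalues of `L` on `H_1(M)` are `0`, `2 r`, `r` and
`r ± a_c δ_c`, and `L` is diagonalizable. Let `σ` be an automorphism of `ℂ`, and `Q` a polynomial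
with `Q(a) = σ(a)` for the eigenvalues `a`. By Chevalley's theorem on replicas the matrix `Q(L)` is
in the Lie algebra of `G`, over `ℂ`. The rational components of `Q(L)` are in `𝔤` too. So the space
of the pairs `(a, r)` is stable under the group of the quadratic characters `σ ↦ σ(δ_c) / δ_c`. By
the independence of characters it is everything (`chr_top`).

3. So `𝔤` contains lifts of all elements of the Lie algebra of the Hodge group of `A` and a lift of
the weight. The unipotent part has been determined in `Pool.Agent.R917.BX` (relations between the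
points, the theorem of Schneider and Lang for functions with many periods, the theorem of
Lindemann): the rational components of the operators which define the Hodge structure of `M` are
in the Lie algebra of `G`.
-/

open Module Matrix Pool.Agent.Y102 Pool.Agent.R917.OM Pool.Agent.R917.BX Pool.Agent.R917.EC
  Pool.Agent.W516.DR Pool.Agent.H204R3.GP

noncomputable section

namespace Pool.Agent.R917.EC.EllipticOneMotives

variable {g n s : ℕ} (A : AbVarG g)

/-! ### Products of elliptic curves -/

/-- The endomorphisms of the rational homology `H_1(A, ℚ) = ℚ^(2g)` (the basis is the basis of the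
lattice). -/
abbrev EndH (g : ℕ) : Type := Module.End ℚ (Fin (2 * g) → ℚ)

/-- `T` is an endomorphism of `A` over `ℂ`, up to isogeny (an element of `End(A_ℂ) ⊗ ℚ`): it extends
to a complex linear endomorphism of the tangent space `ℂ ^ g`. -/
def IsComplexEnd (T : EndH g) : Prop := IsHodgeEnd (A.per : A.H1 →+ (Fin g → ℂ)) T

/-- `T` is an endomorphism of `A` over `ℚ̄`, up to isogeny, in terms of its action on
`H^1_dR(A / ℚ̄)`: the periods and quasi-periods of `T(w)` are linear combinations with algebraic
coefficients of those of `w`. -/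
def IsAlgebraicEnd (T : EndH g) : Prop := IsDeRhamBettiEnd QBar A.dR T

/-- The `P i` are projectors to elliptic curves `E_1, ..., E_g` such that `A` is isogenous to their
product. They are endomorphisms of `A` over `ℚ̄`. Two of the elliptic curves are isogenous over `ℚ̄`
or not isogenous over `ℂ` (this is always the case for elliptic curves over `ℚ̄`). -/
structure IsEllipticDecomposition (P : Fin g → EndH g) : Prop where
  algebraic : ∀ i, IsAlgebraicEnd A (P i)
  projector : ∀ i, P i * P i = P i
  sum : ∑ i, P i = 1
  rank : ∀ i, finrank ℚ (LinearMap.range (P i)) = 2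
  isogeny : ∀ i j, i ≠ j → (∃ T, IsAlgebraicEnd A T ∧ P j * T * P i ≠ 0) ∨
    ∀ T, IsComplexEnd A T → P j * T * P i = 0

/-- `A` is isogenous, over `ℚ̄`, to a product of elliptic curves. -/
def IsEllipticProduct : Prop := ∃ P : Fin g → EndH g, IsEllipticDecomposition A P

/-! ### 1-motives and their periods -/

/-- The basis of the Betti realization of the 1-motive: the basis `λ_j` of the lattice of `A`, the
basis `γ_l` of `H_1(G_m^s)`, the basis `e_i` of `ℤ^n`. -/
abbrev Betti (g n s : ℕ) : Type := Fin (2 * g) ⊕ (Fin s ⊕ Fin n)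

/-- The basis of the de Rham cohomology of the 1-motive: the invariant differentials `d z_k` and the
differentials of the second kind `d h_k` on `A`, the invariant differentials of the third kind `ω_l`
on the semiabelian variety, and a basis for `ℤ^n`. -/
abbrev DeRham (g n s : ℕ) : Type := (Fin g ⊕ Fin g) ⊕ (Fin s ⊕ Fin n)

/-- The integral of the second kind `h_k = ∂ k (log θ 0)`, with the value zero at the origin. -/
def second (k : Fin g) (z : Fin g → ℂ) : ℂ := pd k (A.θ 0) z / A.θ 0 z - pd k (A.θ 0) 0

/-- The comparison isomorphism of the 1-motive. The rows are the Betti side. -/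
def periodMatrix (u : Fin n → Fin g → ℂ) (v : Fin s → Fin g → ℂ) (ℓ : Fin n → Fin s → ℂ) :
    Matrix (Betti g n s) (DeRham g n s) ℂ := Matrix.of fun r c =>
  match r, c with
  | Sum.inl j, Sum.inl (Sum.inl k) => A.lam j k
  | Sum.inl j, Sum.inl (Sum.inr k) => A.η j k
  | Sum.inl j, Sum.inr (Sum.inl l) => ∑ k, (second A k (v l) * A.lam j k - v l k * A.η j k)
  | Sum.inr (Sum.inl l), Sum.inr (Sum.inl l') => if l = l' then 2 * Real.pi * Complex.I else 0
  | Sum.inr (Sum.inr i), Sum.inl (Sum.inl k) => u i k
  | Sum.inr (Sum.inr i), Sum.inl (Sum.inr k) => second A k (u i)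
  | Sum.inr (Sum.inr i), Sum.inr (Sum.inl l) => ℓ i l
  | Sum.inr (Sum.inr i), Sum.inr (Sum.inr i') => if i = i' then 1 else 0
  | _, _ => 0

/-- The data `u_i, v_l, ℓ_il` of a 1-motive over the algebraic numbers: the points of `A` and of the
dual abelian variety are algebraic, and so are the points of the extension, in terms of the
trivialization by the function `θ(z - v) / (θ(z) θ(-v)) · exp(∑ k, h_k(v) z_k)`. The vectors are
chosen outside of the divisor of the theta function. -/
structure IsOneMotive (u : Fin n → Fin g → ℂ) (v : Fin s → Fin g → ℂ) (ℓ : Fin n → Fin s → ℂ) :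
    Prop where
  point : ∀ i, IsPoint A.toAbVar (u i)
  dual : ∀ l, IsPoint A.toAbVar (v l)
  neg : ∀ l, IsPoint A.toAbVar (-v l)
  sub : ∀ i l, IsPoint A.toAbVar (u i - v l)
  log : ∀ i l, ∃ q : ℂ, IsAlgebraic ℚ q ∧ Complex.exp (ℓ i l) =
    q * (A.θ 0 (u i - v l) / (A.θ 0 (u i) * A.θ 0 (-v l))) *
      Complex.exp (∑ k, second A k (v l) * u i k)

/-! ### Algebraic groups which contain the periods -/

/-- A subgroup of `GL_R(ℂ)` defined by polynomials with rational coefficients. -/
def IsAlgebraicSubgroup {R : Type} [Fintype R] [DecidableEq R] (G : Subgroup (GL R ℂ)) : Prop :=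
  ∃ I : Set (MvPolynomial (R × R) ℚ), ∀ x : GL R ℂ, x ∈ G ↔
    ∀ p ∈ I, MvPolynomial.aeval (fun b : R × R => (x : Matrix R R ℂ) b.1 b.2) p = 0

/-- The comparison isomorphism `c` is an element of a torsor `G · T⁻¹` of `G`, defined over the
algebraic numbers: `T` is a matrix with algebraic entries (an isomorphism between the Betti side and
the de Rham side) such that `c T ∈ G`. -/
def ContainsPeriods (u : Fin n → Fin g → ℂ) (v : Fin s → Fin g → ℂ) (ℓ : Fin n → Fin s → ℂ)
    (G : Subgroup (GL (Betti g n s) ℂ)) : Prop :=
  ∃ T : Matrix (DeRham g n s) (Betti g n s) ℂ, (∀ i j, IsAlgebraic ℚ (T i j)) ∧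
    ∃ x ∈ G, (x : Matrix (Betti g n s) (Betti g n s) ℂ) = periodMatrix A u v ℓ * T

/-! ### The mixed Hodge structure and the Mumford-Tate group -/

/-- The Hodge filtration: the vectors of `H_1(M, ℂ)` (in terms of their coordinates) on which the
invariant differentials of the semiabelian variety vanish. -/
def F0 (u : Fin n → Fin g → ℂ) (v : Fin s → Fin g → ℂ) (ℓ : Fin n → Fin s → ℂ)
    (x : Betti g n s → ℂ) : Prop :=
  (∀ k, ∑ r, x r * periodMatrix A u v ℓ r (Sum.inl (Sum.inl k)) = 0) ∧
    ∀ l, ∑ r, x r * periodMatrix A u v ℓ r (Sum.inr (Sum.inl l)) = 0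

/-- The part of weight `≤ -1` of the homology, the homology of the semiabelian variety. -/
def W1 (x : Betti g n s → ℂ) : Prop := ∀ i, x (Sum.inr (Sum.inr i)) = 0

/-- The part of weight `≤ -2` of the homology, the homology of the torus. -/
def W2 (x : Betti g n s → ℂ) : Prop :=
  (∀ j, x (Sum.inl j) = 0) ∧ ∀ i, x (Sum.inr (Sum.inr i)) = 0

/-- The complex conjugate vector. -/
def bar (x : Betti g n s → ℂ) : Betti g n s → ℂ := fun r => (starRingEnd ℂ) (x r)

/-- The matrix `M` gives the action of the element `z` of the Deligne torus on the homology of the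
1-motive (vectors are rows): it acts by `1` on `I^{0,0} = F^0 ∩ (F̄^0 + W_{-2})`, by `z̄` on
`I^{0,-1} = F^0 ∩ W_{-1}`, by `z` on its complex conjugate `I^{-1,0}` and by `z z̄` on
`I^{-1,-1} = W_{-2}`. -/
structure IsDeligne (u : Fin n → Fin g → ℂ) (v : Fin s → Fin g → ℂ) (ℓ : Fin n → Fin s → ℂ)
    (z : ℂ) (M : Matrix (Betti g n s) (Betti g n s) ℂ) : Prop where
  zero_zero : ∀ x y w, F0 A u v ℓ x → F0 A u v ℓ y → W2 w → x = bar y + w → x ᵥ* M = x
  zero_neg : ∀ x, F0 A u v ℓ x → W1 x → x ᵥ* M = (starRingEnd ℂ) z • x
  neg_zero : ∀ x, F0 A u v ℓ x → W1 x → bar x ᵥ* M = z • bar x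
  neg_neg : ∀ x, W2 x → x ᵥ* M = (z * (starRingEnd ℂ) z) • x

/-- The Mumford-Tate group of the 1-motive: the smallest algebraic group over `ℚ` which contains the
image of the Deligne torus. -/
def mumfordTate (u : Fin n → Fin g → ℂ) (v : Fin s → Fin g → ℂ) (ℓ : Fin n → Fin s → ℂ) :
    Subgroup (GL (Betti g n s) ℂ) :=
  sInf {G | IsAlgebraicSubgroup G ∧ ∀ z : ℂ, z ≠ 0 → ∃ x ∈ G,
    IsDeligne A u v ℓ z (x : Matrix (Betti g n s) (Betti g n s) ℂ)}

/-! ### Proofs -/

/-- the data of the 1-motive -/
def dat (u : Fin n → Fin g → ℂ) (v : Fin s → Fin g → ℂ) (ℓ : Fin n → Fin s → ℂ) : Dt g n s where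
  P := Sum.elim (fun i => Sum.elim (u i) (fun k => second A k (u i)))
    (fun l => Sum.elim (v l) (fun k => second A k (v l)))
  ℓ := ℓ

theorem per_eb (j : Fin (2 * g)) (k : Fin g) : A.dR (Sum.inl k) (eb A.toAbVar j) = A.lam j k := by
  change A.per (Pi.single j 1) k = _
  unfold AbVar.per
  rw [Fintype.linearCombination_apply_single, one_smul]

theorem eta_eb (j : Fin (2 * g)) (k : Fin g) : A.dR (Sum.inr k) (eb A.toAbVar j) = A.η j k := by
  change A.eta (Pi.single j 1) k = _
  unfold AbVar.eta
  rw [Fintype.linearCombination_apply_single, one_smul]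

theorem periodMatrix_eq (u : Fin n → Fin g → ℂ) (v : Fin s → Fin g → ℂ)
    (ℓ : Fin n → Fin s → ℂ) : periodMatrix A u v ℓ = pmat A.toAbVar (dat A u v ℓ) := by
  ext r c
  rcases r with j | l | i <;> rcases c with (k | k) | l' | i' <;>
    simp [periodMatrix, pmat, dat, per_eb, eta_eb, thd, tau]

/-- The data of the isogeny classes. -/
theorem exists_classes (hA : IsEllipticProduct A) :
    ∃ (C : Type) (_ : Finite C), Nonempty (EP A.toAbVar C) := by
  obtain ⟨P, hP⟩ := hA
  refine exists_EP P (fun i => A.toAbVar.mem_EA.2 (hP.algebraic i)) hP.projector hP.sum hP.rank ?_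
  intro i j hij
  rcases hP.isogeny i j hij with ⟨T, hT, hT0⟩ | h
  · exact Or.inl ⟨T, A.toAbVar.mem_EA.2 hT, hT0⟩
  · exact Or.inr fun T hT => h T hT

/-- **Theorem.** Every algebraic group over `ℚ` with a torsor over `ℚ̄` which contains the comparison
isomorphism of a 1-motive over a product of elliptic curves contains the Mumford-Tate group of the
1-motive. -/
theorem result (g n s : ℕ) (A : AbVarG g) (hA : IsEllipticProduct A) (u : Fin n → Fin g → ℂ)
    (v : Fin s → Fin g → ℂ) (ℓ : Fin n → Fin s → ℂ) (hM : IsOneMotive A u v ℓ)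
    (G : Subgroup (GL (Betti g n s) ℂ)) (hG : IsAlgebraicSubgroup G)
    (hP : ContainsPeriods A u v ℓ G) : mumfordTate A u v ℓ ≤ G := by
  obtain ⟨T, hT, x, hx, hxT⟩ := hP
  rw [periodMatrix_eq] at hxT
  have hpt := ptM_of hG hT hx hxT
  obtain ⟨K₁, hK₁, hrat⟩ := exists_rat_mult A (pt (dat A u v ℓ)) (by
    rintro (i | l)
    · exact Or.inl (hM.point i)
    · exact Or.inl (hM.dual l))
  obtain ⟨C, hC, ⟨S⟩⟩ := exists_classes A hA
  obtain ⟨h1, h2⟩ := hodge_stab3 hpt ⟨hM.point, hM.neg, hM.sub, hM.log⟩ hrat S
  refine sInf_le ⟨hG, fun z hz => ?_⟩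
  obtain ⟨M, ⟨y, hy, hyM⟩, hM⟩ := hodge_exp hpt.grp h1 h2 z
  have hlog : ((Complex.log z).re : ℂ) + (Complex.log z).im * Complex.I = Complex.log z :=
    Complex.re_add_im _
  have hexp := Complex.exp_log hz
  have hconj : Complex.exp ((starRingEnd ℂ) (Complex.log z)) = (starRingEnd ℂ) z := by
    rw [Complex.exp_conj, hexp]
  have hlog' : ((Complex.log z).re : ℂ) - (Complex.log z).im * Complex.I =
      (starRingEnd ℂ) (Complex.log z) := by
    apply Complex.ext <;> simp
  rw [← hyM] at hM
  have hF : ∀ a, F0 A u v ℓ a → (∀ k, i1 A.toAbVar (dat A u v ℓ) a k = 0) ∧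
      ∀ l, i3 A.toAbVar (dat A u v ℓ) a l = 0 := by
    rintro a ⟨ha1, ha2⟩
    rw [periodMatrix_eq] at ha1 ha2
    exact ⟨ha1, ha2⟩
  refine ⟨y, hy, ⟨fun a b w ha hb hw hab => ?_, fun a ha ha1 => ?_, fun a ha ha1 => ?_,
    fun a ha => ?_⟩⟩
  · obtain ⟨e1, e2⟩ := eig_0 (A := A.toAbVar) (d := dat A u v ℓ) (v := a) (f := b)
      (fun j => by rw [hab, Pi.add_apply, hw.1, add_zero]; rfl)
      (fun i => by rw [hab, Pi.add_apply, hw.2, add_zero]; rfl) (hF a ha).1 (hF a ha).2 (hF b hb).1
    have h3 := hM a 0 0 e1 e2
    rwa [mul_zero, mul_zero, add_zero, Complex.exp_zero, one_smul] at h3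
  · obtain ⟨e1, e2⟩ := eig_m (A := A.toAbVar) (d := dat A u v ℓ) (v := a) ha1 (hF a ha).1
      (hF a ha).2
    have h3 := hM a 1 (-Complex.I) (by rw [one_smul]; exact e1) e2
    rw [h3, ← hconj, ← hlog']
    congr 2
    ring
  · obtain ⟨e1, e2⟩ := eig_p (A := A.toAbVar) (d := dat A u v ℓ) (v := bar a) (w := a)
      (fun r => rfl) ha1 (hF a ha).1 (hF a ha).2
    have h3 := hM (bar a) 1 Complex.I (by rw [one_smul]; exact e1) e2
    rw [h3, mul_one, hlog, hexp]
  · obtain ⟨e1, e2⟩ := eig_t (A := A.toAbVar) (d := dat A u v ℓ) (v := a) ha.1 ha.2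
    have h3 := hM a 2 0 e1 e2
    rw [h3]
    congr 1
    rw [mul_zero, add_zero]
    have h4 : z * (starRingEnd ℂ) z =
        Complex.exp (Complex.log z) * Complex.exp ((starRingEnd ℂ) (Complex.log z)) := by
      rw [hexp, hconj]
    rw [h4, ← Complex.exp_add]
    congr 1
    linear_combination hlog + hlog'

/-- For an elliptic curve the hypothesis holds: the theorem applies to all 1-motives over all
elliptic curves. -/
theorem isEllipticProduct_one (A : AbVarG 1) : IsEllipticProduct A := by
  refine ⟨fun _ => 1, ⟨fun _ => ?_, fun _ => mul_one _, ?_, fun _ => ?_, fun i j hij => ?_⟩⟩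
  · rw [IsAlgebraicEnd, ← A.toAbVar.mem_EA]
    intro X _
    exact (mul_one X).trans (one_mul X).symm
  · simp
  · have h1 : LinearMap.range (1 : EndH 1) = ⊤ := LinearMap.range_id
    rw [h1, finrank_top]
    simp
  · exact absurd (Subsingleton.elim i j) hij

end Pool.Agent.R917.EC.EllipticOneMotives
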