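import Mathlib

set_option autoImplicit false
set_option linter.unusedSectionVars false
set_option linter.unusedSimpArgs false

/-!
# Subalgebras of products of Lie algebras of two by two matrices
-/

open Matrix

namespace Pool.Agent.R917.EC

/-- two by two matrices -/
abbrev M2 : Type := Matrix (Fin 2) (Fin 2) ℚ

/-- the trace form -/
def sp (x y : M2) : ℚ := x 0 0 * y 0 0 + x 0 1 * y 1 0 + x 1 0 * y 0 1 + x 1 1 * y 1 1

/-- trace zero -/
def tz (x : M2) : Prop := x 1 1 = - x 0 0

theorem sp_add_left (x y z : M2) : sp (x + y) z = sp x z + sp y z := by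
  simp only [sp, Matrix.add_apply]
  ring

theorem sp_add_right (x y z : M2) : sp x (y + z) = sp x y + sp x z := by
  simp only [sp, Matrix.add_apply]
  ring

theorem sp_smul_right (a : ℚ) (x y : M2) : sp x (a • y) = a * sp x y := by
  simp only [sp, Matrix.smul_apply, smul_eq_mul]
  ring

theorem sp_comm (x y : M2) : sp x y = sp y x := by
  simp only [sp]
  ring

/-- the bracket -/
def lb (x y : M2) : M2 := x * y - y * x

theorem lb_tz (x y : M2) : tz (lb x y) := by
  simp only [tz, lb, Matrix.sub_apply, Matrix.mul_apply, Fin.sum_univ_two]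
  ring

theorem triple {w x y z : M2} (hw : tz w) (hx : tz x) (hy : tz y) (hz : tz z) :
    sp (lb x y) z • w = sp w x • lb y z + sp w y • lb z x + sp w z • lb x y := by
  unfold tz at hw hx hy hz
  ext i j
  fin_cases i <;> fin_cases j <;>
  · simp only [sp, lb, Matrix.add_apply, Matrix.smul_apply, Matrix.sub_apply, Matrix.mul_apply,
      Fin.sum_univ_two, smul_eq_mul, Fin.zero_eta, Fin.mk_one, hw, hx, hy, hz]
    ring

theorem sp_lb_sq {x y : M2} (hx : tz x) (hy : tz y) :
    sp (lb x y) (lb x y) = 2 * sp x y ^ 2 - 2 * sp x x * sp y y := by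
  unfold tz at hx hy
  simp only [sp, lb, Matrix.sub_apply, Matrix.mul_apply, Fin.sum_univ_two, hx, hy]
  ring

theorem sp_lb_self (x y : M2) : sp (lb x y) x = 0 := by
  simp only [sp, lb, Matrix.sub_apply, Matrix.mul_apply, Fin.sum_univ_two]
  ring

theorem sp_lb_self' (x y : M2) : sp (lb x y) y = 0 := by
  simp only [sp, lb, Matrix.sub_apply, Matrix.mul_apply, Fin.sum_univ_two]
  ring

theorem ad3 {x y : M2} (hx : tz x) (hy : tz y) :
    lb x (lb x (lb x y)) = (2 * sp x x) • lb x y := by
  unfold tz at hx hy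
  ext i j
  fin_cases i <;> fin_cases j <;>
  · simp only [sp, lb, Matrix.smul_apply, Matrix.sub_apply, Matrix.mul_apply,
      Fin.sum_univ_two, smul_eq_mul, Fin.zero_eta, Fin.mk_one, hx, hy]
    ring

theorem anti {x y : M2} (hx : tz x) (hy : tz y) : x * y + y * x = sp x y • (1 : M2) := by
  unfold tz at hx hy
  ext i j
  fin_cases i <;> fin_cases j <;>
  · simp [sp, Matrix.add_apply, Matrix.smul_apply, Matrix.mul_apply,
      Fin.sum_univ_two, hx, hy]
    try ring

/-- the nilpotent matrices and the diagonal matrix -/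
def E : M2 := !![0, 1; 0, 0]
@[inherit_doc E] def F : M2 := !![0, 0; 1, 0]
@[inherit_doc E] def Hh : M2 := !![1, 0; 0, -1]

theorem tz_E : tz E := by simp [tz, E]
theorem tz_F : tz F := by simp [tz, F]
theorem tz_H : tz Hh := by simp [tz, Hh]

theorem eq_EFH {x : M2} (hx : tz x) : x = x 0 1 • E + x 1 0 • F + x 0 0 • Hh := by
  unfold tz at hx
  ext i j
  fin_cases i <;> fin_cases j <;> simp [E, F, Hh, hx]

theorem sp_nondeg {w : M2} (hw : tz w) (h1 : sp w E = 0) (h2 : sp w F = 0) (h3 : sp w Hh = 0) :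
    w = 0 := by
  unfold tz at hw
  simp [sp, E, F, Hh, hw] at h1 h2 h3
  ext i j
  fin_cases i <;> fin_cases j
  · simp only [Fin.zero_eta, Matrix.zero_apply]
    linarith
  · simpa using h2
  · simpa using h1
  · simp only [Fin.mk_one, Matrix.zero_apply, hw]
    linarith

theorem exists_orth {V : Submodule ℚ M2} (hV : ∀ v ∈ V, tz v) {x : M2} (hx : tz x) (hxV : x ∉ V) :
    ∃ w : M2, tz w ∧ w ≠ 0 ∧ ∀ v ∈ V, sp w v = 0 := by
  obtain ⟨φ, hφ2, hφ1⟩ := Submodule.exists_le_ker_of_notMem hxV
  have key : ∀ y : M2, tz y → φ y = y 0 1 * φ E + y 1 0 * φ F + y 0 0 * φ Hh := by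
    intro y hy
    conv_lhs => rw [eq_EFH hy]
    simp only [map_add, map_smul, smul_eq_mul]
  refine ⟨!![φ Hh / 2, φ F; φ E, -(φ Hh / 2)], by simp [tz], fun h0 => ?_, fun v hv => ?_⟩
  · apply hφ2
    have e1 : φ Hh / 2 = 0 := by simpa using congrFun (congrFun h0 0) 0
    have e2 : φ F = 0 := by simpa using congrFun (congrFun h0 0) 1
    have e3 : φ E = 0 := by simpa using congrFun (congrFun h0 1) 0
    have e4 : φ Hh = 0 := by linarith
    rw [key x hx, e2, e3, e4]
    ring
  · have h1 : φ v = 0 := LinearMap.mem_ker.1 (hφ1 hv)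
    rw [key v (hV v hv)] at h1
    have h2 : v 1 1 = - v 0 0 := hV v hv
    simp [sp, h2]
    linarith

/-- The image of a nilpotent matrix. -/
theorem nil_vec {z : M2} (hz : tz z) (h0 : sp z z = 0) (hz0 : z ≠ 0) :
    ∃ u : Fin 2 → ℚ, u ≠ 0 ∧ (∃ e, u = z *ᵥ e) ∧ (∀ e, ∃ a : ℚ, z *ᵥ e = a • u) ∧
      ∀ x : Fin 2 → ℚ, z *ᵥ x = 0 → ∃ a : ℚ, x = a • u := by
  unfold tz at hz
  have hd : z 0 0 ^ 2 + z 0 1 * z 1 0 = 0 := by
    simp only [sp, hz] at h0
    linarith
  by_cases hc : z 1 0 = 0
  · have ha : z 0 0 = 0 := by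
      rw [hc, mul_zero, add_zero] at hd
      exact pow_eq_zero_iff (two_ne_zero) |>.1 hd
    have hb : z 0 1 ≠ 0 := by
      intro hb
      apply hz0
      ext i j
      fin_cases i <;> fin_cases j <;> simp [ha, hb, hc, hz]
    refine ⟨![z 0 1, 0], fun h => hb (by simpa using congrFun h 0), ⟨![0, 1], ?_⟩, fun e => ?_,
      fun x hx => ?_⟩
    · ext i
      fin_cases i <;> simp [Matrix.mulVec, dotProduct, Fin.sum_univ_two, ha, hc, hz]
    · refine ⟨e 1, ?_⟩
      ext i
      fin_cases i <;> simp [Matrix.mulVec, dotProduct, Fin.sum_univ_two, ha, hc, hz, mul_comm]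
    · have h1 := congrFun hx 0
      simp [Matrix.mulVec, dotProduct, Fin.sum_univ_two, ha, hc, hz] at h1
      refine ⟨x 0 / z 0 1, ?_⟩
      ext i
      fin_cases i
      · simp [hb]
      · simpa using h1.resolve_left hb
  · refine ⟨![z 0 0, z 1 0], fun h => hc (by simpa using congrFun h 1), ⟨![1, 0], ?_⟩,
      fun e => ?_, fun x hx => ?_⟩
    · ext i
      fin_cases i <;> simp [Matrix.mulVec, dotProduct, Fin.sum_univ_two]
    · have hb : z 0 1 = -(z 0 0 ^ 2) / z 1 0 := by
        field_simp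
        linarith
      refine ⟨e 0 - z 0 0 / z 1 0 * e 1, ?_⟩
      ext i
      fin_cases i
      · simp [Matrix.mulVec, dotProduct, Fin.sum_univ_two, hb]
        field_simp
        ring
      · simp [Matrix.mulVec, dotProduct, Fin.sum_univ_two, hz]
        field_simp
        ring
    · have h1 := congrFun hx 1
      simp [Matrix.mulVec, dotProduct, Fin.sum_univ_two, hz] at h1
      refine ⟨x 1 / z 1 0, ?_⟩
      ext i
      fin_cases i
      · simp
        field_simp
        linarith
      · simp [hc]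

theorem rank_one {z : M2} (hz : tz z) (h0 : sp z z = 0) (x : M2) :
    z * x * z = sp x z • z := by
  unfold tz at hz
  have hd : z 0 0 ^ 2 + z 0 1 * z 1 0 = 0 := by
    simp only [sp, hz] at h0
    linarith
  ext i j
  fin_cases i <;> fin_cases j <;>
  · simp only [sp, Matrix.smul_apply, Matrix.mul_apply,
      Fin.sum_univ_two, smul_eq_mul, Fin.zero_eta, Fin.mk_one, hz]
    first
      | linear_combination (x 0 0) * hd + 0 * hd
      | linear_combination (x 1 1) * hd
      | linear_combination (-(x 1 0)) * hd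
      | linear_combination (-(x 0 1)) * hd

end Pool.Agent.R917.EC
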