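import Pool.Agent.R917.EC.Gou

set_option autoImplicit false
set_option linter.unusedSectionVars false
set_option linter.unusedSimpArgs false

/-!
# Subalgebras of products of Lie algebras of two by two matrices: the theorem of Goursat type
-/

open Matrix

namespace Pool.Agent.R917.EC

variable {C : Type} [Finite C]

/-- A Lie algebra of families of two by two matrices of trace zero. -/
structure Gd (𝔥 : Submodule ℚ (C → M2)) (N : Set C) : Prop where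
  tr : ∀ ξ ∈ 𝔥, ∀ c, tz (ξ c)
  br : ∀ ξ ∈ 𝔥, ∀ η ∈ 𝔥, (fun c => lb (ξ c) (η c)) ∈ 𝔥
  sc : ∀ c ∈ N, ∀ P : M2, (∀ ξ ∈ 𝔥, P * ξ c = ξ c * P) → ∃ a : ℚ, P = a • (1 : M2)
  se : ∀ c ∈ N, ∀ u : Fin 2 → ℚ, u ≠ 0 → (∀ ξ ∈ 𝔥, ∃ a : ℚ, ξ c *ᵥ u = a • u) →
    ∃ u' : Fin 2 → ℚ, (∀ a : ℚ, u' ≠ a • u) ∧ ∀ ξ ∈ 𝔥, ∃ a : ℚ, ξ c *ᵥ u' = a • u'
  ho : ∀ c ∈ N, ∀ d ∈ N, c ≠ d → ∀ P : M2, (∀ ξ ∈ 𝔥, P * ξ c = ξ d * P) → P = 0
  cm : ∀ d, d ∉ N → ∀ ξ ∈ 𝔥, ∀ η ∈ 𝔥, lb (ξ d) (η d) = 0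

theorem tz_of_scalar {x : M2} (hx : tz x) {a : ℚ} (h : x = a • (1 : M2)) : x = 0 := by
  unfold tz at hx
  have e1 : x 0 0 = a := by simp [h]
  have e2 : x 1 1 = a := by simp [h]
  have e3 : a = 0 := by linarith
  rw [h, e3, zero_smul]

theorem lb_eq_zero {x y : M2} (h : lb x y = 0) : x * y = y * x := sub_eq_zero.1 h

theorem lb_smul_right (a : ℚ) (x y : M2) : lb x (a • y) = a • lb x y := by
  unfold lb
  rw [Matrix.mul_smul, Matrix.smul_mul, smul_sub]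

theorem lb_smul_left (a : ℚ) (x y : M2) : lb (a • x) y = a • lb x y := by
  unfold lb
  rw [Matrix.mul_smul, Matrix.smul_mul, smul_sub]

theorem lb_anti (x y : M2) : lb x y = - lb y x := by
  unfold lb
  rw [neg_sub]

theorem comm_of_sp {z x : M2} (hz : tz z) (hx : tz x) (hz0 : z ≠ 0) (h : lb x z = 0)
    : ∃ a : ℚ, x = a • z := by
  have h1 := lb_eq_zero h
  unfold tz at hz hx
  have e1 := congrFun (congrFun h1 0) 1
  have e2 := congrFun (congrFun h1 1) 0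
  have e3 := congrFun (congrFun h1 0) 0
  simp only [Matrix.mul_apply, Fin.sum_univ_two, hz, hx] at e1 e2 e3
  by_cases ha : z 0 0 = 0
  · by_cases hb : z 0 1 = 0
    · have hc : z 1 0 ≠ 0 := by
        intro hc
        apply hz0
        ext i j
        fin_cases i <;> fin_cases j <;> simp [ha, hb, hc, hz]
      refine ⟨x 1 0 / z 1 0, ?_⟩
      have f1 : x 0 0 = 0 := by
        rw [ha] at e2
        have : x 0 0 * z 1 0 = 0 := by linarith
        exact (mul_eq_zero.1 this).resolve_right hc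
      have f2 : x 0 1 = 0 := by
        rw [ha, hb] at e3
        have : x 0 1 * z 1 0 = 0 := by linarith
        exact (mul_eq_zero.1 this).resolve_right hc
      ext i j
      fin_cases i <;> fin_cases j <;> simp [ha, hb, hc, hz, hx, f1, f2]
    · refine ⟨x 0 1 / z 0 1, ?_⟩
      have f1 : x 0 0 = 0 := by
        rw [ha] at e1
        have : x 0 0 * z 0 1 = 0 := by linarith
        exact (mul_eq_zero.1 this).resolve_right hb
      have f2 : x 1 0 = x 0 1 / z 0 1 * z 1 0 := by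
        field_simp
        linarith
      ext i j
      fin_cases i <;> fin_cases j <;> simp [ha, hb, hz, hx, f1, f2]
  · refine ⟨x 0 0 / z 0 0, ?_⟩
    have f1 : x 0 1 = x 0 0 / z 0 0 * z 0 1 := by
      field_simp
      linarith
    have f2 : x 1 0 = x 0 0 / z 0 0 * z 1 0 := by
      field_simp
      linarith
    ext i j
    fin_cases i <;> fin_cases j <;> simp [ha, hz, hx, f1, f2]

variable {𝔥 : Submodule ℚ (C → M2)} {N : Set C}

theorem Gd.surj (h : Gd 𝔥 N) {c : C} (hc : c ∈ N) {x : M2} (hx : tz x) : ∃ ξ ∈ 𝔥, ξ c = x := by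
  by_contra hcon
  have hxV : x ∉ 𝔥.map (LinearMap.proj c : (C → M2) →ₗ[ℚ] M2) := by
    rintro ⟨ξ, hξ, rfl⟩
    exact hcon ⟨ξ, hξ, rfl⟩
  obtain ⟨w, hw, hw0, hwV⟩ := exists_orth (V := 𝔥.map (LinearMap.proj c : (C → M2) →ₗ[ℚ] M2))
    (by rintro _ ⟨ξ, hξ, rfl⟩; exact h.tr ξ hξ c) hx hxV
  have hw1 : ∀ ξ ∈ 𝔥, sp w (ξ c) = 0 := fun ξ hξ => hwV _ ⟨ξ, hξ, rfl⟩
  have key : ∀ ξ ∈ 𝔥, ∀ η ∈ 𝔥, ∀ ζ ∈ 𝔥, sp (lb (ξ c) (η c)) (ζ c) = 0 := by
    intro ξ hξ η hη ζ hζ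
    have h1 := triple hw (h.tr ξ hξ c) (h.tr η hη c) (h.tr ζ hζ c)
    rw [hw1 ξ hξ, hw1 η hη, hw1 ζ hζ, zero_smul, zero_smul, zero_smul, add_zero, add_zero] at h1
    exact (smul_eq_zero.1 h1).resolve_right hw0
  by_cases hab : ∀ ξ ∈ 𝔥, ∀ η ∈ 𝔥, lb (ξ c) (η c) = 0
  · -- the commutative case
    by_cases hz : ∀ ξ ∈ 𝔥, ξ c = 0
    · obtain ⟨a, ha⟩ := h.sc c hc E (fun ξ hξ => by rw [hz ξ hξ, mul_zero, zero_mul])
      have h1 := tz_of_scalar tz_E ha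
      have h2 := congrFun (congrFun h1 0) 1
      simp [E] at h2
    · push Not at hz
      obtain ⟨ξ, hξ, h1⟩ := hz
      obtain ⟨a, ha⟩ := h.sc c hc (ξ c) (fun η hη => lb_eq_zero (hab ξ hξ η hη))
      exact h1 (tz_of_scalar (h.tr ξ hξ c) ha)
  · push Not at hab
    obtain ⟨ξ, hξ, η, hη, hz0⟩ := hab
    obtain ⟨z, hz⟩ : ∃ z, z = lb (ξ c) (η c) := ⟨_, rfl⟩
    rw [← hz] at hz0
    have hzt : tz z := by
      rw [hz]
      exact lb_tz _ _
    have hzz : ∀ ζ ∈ 𝔥, sp z (ζ c) = 0 := by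
      intro ζ hζ
      rw [hz]
      exact key ξ hξ η hη ζ hζ
    have hz2 : sp z z = 0 := by
      have h1 := hzz _ (h.br ξ hξ η hη)
      rwa [← hz] at h1
    obtain ⟨u, hu0, ⟨e, hu⟩, him, hker⟩ := nil_vec hzt hz2 hz0
    have hst : ∀ ζ ∈ 𝔥, ∃ a : ℚ, ζ c *ᵥ u = a • u := by
      intro ζ hζ
      refine hker _ ?_
      rw [hu, Matrix.mulVec_mulVec, Matrix.mulVec_mulVec, rank_one hzt hz2,
        sp_comm (ζ c) z, hzz ζ hζ, zero_smul, Matrix.zero_mulVec]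
    obtain ⟨u', hu1, hu2⟩ := h.se c hc u hu0 hst
    obtain ⟨a, ha⟩ := hu2 _ (h.br ξ hξ η hη)
    change lb (ξ c) (η c) *ᵥ u' = a • u' at ha
    rw [← hz] at ha
    obtain ⟨b, hb⟩ := him u'
    rw [hb] at ha
    have ha0 : a = 0 := by
      by_contra ha0
      apply hu1 (a⁻¹ * b)
      rw [mul_smul, ha, smul_smul, inv_mul_cancel₀ ha0, one_smul]
    rw [ha0, zero_smul] at ha
    rw [ha] at hb
    obtain ⟨a', ha'⟩ := hker u' hb
    exact hu1 a' ha'

theorem dbl {x y z : M2} (hx : tz x) (hy : tz y) (hz : tz z) :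
    lb z (lb y x) = (2 * sp z y) • x + (-(2 * sp z x)) • y := by
  unfold tz at hx hy hz
  ext i j
  fin_cases i <;> fin_cases j <;>
  · simp only [sp, lb, Matrix.smul_apply, Matrix.sub_apply, Matrix.add_apply, Matrix.mul_apply,
      Fin.sum_univ_two, smul_eq_mul, Fin.zero_eta, Fin.mk_one, hx, hy, hz]
    ring

theorem sp_E (x : M2) : sp x E = x 1 0 := by simp [sp, E]
theorem sp_F (x : M2) : sp x F = x 0 1 := by simp [sp, F]
theorem sp_H {x : M2} (hx : tz x) : sp x Hh = 2 * x 0 0 := by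
  unfold tz at hx
  simp [sp, Hh, hx]
  ring

theorem ideal_lemma {w x : M2} (hw : tz w) (hx : tz x)
    (h : ∀ y z, tz y → tz z → sp w (lb z (lb y x)) = 0) : w = 0 ∨ x = 0 := by
  have key : ∀ y z, tz y → tz z → sp z y * sp w x = sp z x * sp w y := by
    intro y z hy hz
    have h1 := h y z hy hz
    rw [dbl hx hy hz, sp_add_right, sp_smul_right, sp_smul_right] at h1
    linarith
  have a1 := key E E tz_E tz_E
  have a2 := key F E tz_F tz_E
  have a3 := key Hh E tz_H tz_E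
  have a4 := key E F tz_E tz_F
  have a5 := key F F tz_F tz_F
  have a6 := key Hh F tz_H tz_F
  have a7 := key E Hh tz_E tz_H
  have a8 := key F Hh tz_F tz_H
  have a9 := key Hh Hh tz_H tz_H
  have b1 : sp E E = 0 := by simp [sp, E]
  have b2 : sp E F = 1 := by simp [sp, E, F]
  have b3 : sp E Hh = 0 := by simp [sp, E, Hh]
  have b4 : sp F E = 1 := by simp [sp, E, F]
  have b5 : sp F F = 0 := by simp [sp, F]
  have b6 : sp F Hh = 0 := by simp [sp, F, Hh]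
  have b7 : sp Hh E = 0 := by simp [sp, E, Hh]
  have b8 : sp Hh F = 0 := by simp [sp, F, Hh]
  have b9 : sp Hh Hh = 2 := by simp [sp, Hh]; norm_num
  have b0 : sp w x = 2 * (w 0 0 * x 0 0) + w 0 1 * x 1 0 + w 1 0 * x 0 1 := by
    unfold tz at hw hx
    simp only [sp, hw, hx]
    ring
  rw [b1, zero_mul, sp_comm E x, sp_E, sp_E] at a1
  rw [b2, one_mul, b0, sp_comm E x, sp_E, sp_F] at a2
  rw [b3, zero_mul, sp_comm E x, sp_E, sp_H hw] at a3
  rw [b4, one_mul, b0, sp_comm F x, sp_F, sp_E] at a4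
  rw [b5, zero_mul, sp_comm F x, sp_F, sp_F] at a5
  rw [b6, zero_mul, sp_comm F x, sp_F, sp_H hw] at a6
  rw [b7, zero_mul, sp_comm Hh x, sp_H hx, sp_E] at a7
  rw [b8, zero_mul, sp_comm Hh x, sp_H hx, sp_F] at a8
  rw [b9, b0, sp_comm Hh x, sp_H hx, sp_H hw] at a9
  have c1 : w 1 0 * x 1 0 = 0 := by linarith
  have c2 : w 0 1 * x 0 1 = 0 := by linarith
  have c3 : w 0 0 * x 1 0 = 0 := by linarith
  have c4 : w 0 0 * x 0 1 = 0 := by linarith
  have c5 : w 1 0 * x 0 0 = 0 := by linarith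
  have c6 : w 0 1 * x 0 0 = 0 := by linarith
  have c7 : w 0 1 * x 1 0 = 0 := by linarith
  have c8 : w 1 0 * x 0 1 = 0 := by linarith
  have c9 : w 0 0 * x 0 0 = 0 := by linarith
  by_cases hx0 : x = 0
  · exact Or.inr hx0
  · left
    have h1 : ∀ i j, w i j = 0 := by
      by_contra hcon
      push Not at hcon
      obtain ⟨i, j, hij⟩ := hcon
      apply hx0
      have hw' : w 0 0 ≠ 0 ∨ w 0 1 ≠ 0 ∨ w 1 0 ≠ 0 := by
        unfold tz at hw
        by_contra hc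
        push Not at hc
        obtain ⟨e1, e2, e3⟩ := hc
        apply hij
        fin_cases i <;> fin_cases j <;> simp [e1, e2, e3, hw]
      unfold tz at hx
      have e : x 0 0 = 0 ∧ x 0 1 = 0 ∧ x 1 0 = 0 := by
        rcases hw' with e | e | e
        · exact ⟨(mul_eq_zero.1 c9).resolve_left e, (mul_eq_zero.1 c4).resolve_left e,
            (mul_eq_zero.1 c3).resolve_left e⟩
        · exact ⟨(mul_eq_zero.1 c6).resolve_left e, (mul_eq_zero.1 c2).resolve_left e,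
            (mul_eq_zero.1 c7).resolve_left e⟩
        · exact ⟨(mul_eq_zero.1 c5).resolve_left e, (mul_eq_zero.1 c8).resolve_left e,
            (mul_eq_zero.1 c1).resolve_left e⟩
      ext i j
      fin_cases i <;> fin_cases j <;> simp [e.1, e.2.1, e.2.2, hx]
    ext i j
    exact h1 i j

/-- An ideal which is not zero is everything. -/
theorem ideal_top {I : Submodule ℚ M2} (hI : ∀ v ∈ I, tz v) (hb : ∀ v ∈ I, ∀ y, tz y → lb y v ∈ I)
    {x₀ : M2} (h₀ : x₀ ∈ I) (hne : x₀ ≠ 0) {x : M2} (hx : tz x) : x ∈ I := by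
  by_contra hcon
  obtain ⟨w, hw, hw0, hwI⟩ := exists_orth hI hx hcon
  rcases ideal_lemma hw (hI _ h₀) (fun y z hy hz => hwI _ (hb _ (hb _ h₀ y hy) z hz)) with h | h
  · exact hw0 h
  · exact hne h

/-- the kernel of one component in the other -/
def Ic (𝔥 : Submodule ℚ (C → M2)) (c d : C) : Submodule ℚ M2 where
  carrier := {x | ∃ ξ ∈ 𝔥, ξ c = x ∧ ξ d = 0}
  zero_mem' := ⟨0, 𝔥.zero_mem, rfl, rfl⟩
  add_mem' := by
    rintro _ _ ⟨ξ, hξ, rfl, h⟩ ⟨η, hη, rfl, h'⟩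
    exact ⟨ξ + η, 𝔥.add_mem hξ hη, rfl, by rw [Pi.add_apply, h, h', add_zero]⟩
  smul_mem' := by
    rintro a _ ⟨ξ, hξ, rfl, h⟩
    exact ⟨a • ξ, 𝔥.smul_mem a hξ, rfl, by rw [Pi.smul_apply, h, smul_zero]⟩

theorem Gd.Ic_top (h : Gd 𝔥 N) {c d : C} (hc : c ∈ N) {x₀ : M2} (h₀ : x₀ ∈ Ic 𝔥 c d)
    (hne : x₀ ≠ 0) {x : M2} (hx : tz x) : x ∈ Ic 𝔥 c d := by
  refine ideal_top (I := Ic 𝔥 c d) ?_ ?_ h₀ hne hx
  · rintro _ ⟨ξ, hξ, rfl, h1⟩
    exact h.tr ξ hξ c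
  · rintro _ ⟨ξ, hξ, rfl, h1⟩ y hy
    obtain ⟨η, hη, rfl⟩ := h.surj hc hy
    refine ⟨_, h.br η hη ξ hξ, rfl, ?_⟩
    change lb (η d) (ξ d) = 0
    rw [h1]
    simp [lb]

theorem E_ne : E ≠ 0 := fun h => by
  have h1 := congrFun (congrFun h 0) 1
  simp [E] at h1

theorem lb_EF : lb E F = Hh := by
  ext i j
  fin_cases i <;> fin_cases j <;> simp [lb, E, F, Hh]

theorem H_ne : Hh ≠ 0 := fun h => by
  have h1 := congrFun (congrFun h 0) 0
  simp [Hh] at h1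

theorem exists_lb {x : M2} (hx : tz x) (hx0 : x ≠ 0) : ∃ y, tz y ∧ lb x y ≠ 0 := by
  by_contra hcon
  push Not at hcon
  have h1 := hcon E tz_E
  have h2 := hcon F tz_F
  obtain ⟨a, ha⟩ := comm_of_sp tz_E hx E_ne h1
  obtain ⟨b, hb⟩ := comm_of_sp tz_F hx (fun h => by
    have h1 := congrFun (congrFun h 1) 0
    simp [F] at h1) h2
  rw [ha] at hb
  have h3 := congrFun (congrFun hb 0) 1
  simp [E, F] at h3
  rw [h3, zero_smul] at ha
  exact hx0 ha

/-- The intertwiner. -/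
theorem exists_P {x y : M2} (hx : tz x) (hy : tz y) (h1 : sp x x = 0) (h2 : sp y y = 0)
    (h3 : sp x y = 1) : ∃ P : M2, P ≠ 0 ∧ P * E = x * P ∧ P * F = y * P := by
  have hxx : x * x = 0 := by
    have h := anti hx hx
    rw [h1, zero_smul, ← two_smul ℚ] at h
    exact (smul_eq_zero.1 h).resolve_left two_ne_zero
  have hyy : y * y = 0 := by
    have h := anti hy hy
    rw [h2, zero_smul, ← two_smul ℚ] at h
    exact (smul_eq_zero.1 h).resolve_left two_ne_zero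
  have hxy : x * y + y * x = 1 := by
    rw [anti hx hy, h3, one_smul]
  have hne : x * y ≠ 0 := by
    intro h0
    rw [h0, zero_add] at hxy
    have h4 : x = 0 := by
      calc x = y * x * x := by rw [hxy, one_mul]
        _ = 0 := by rw [mul_assoc, hxx, mul_zero]
    rw [h4, mul_zero] at hxy
    exact one_ne_zero hxy.symm
  obtain ⟨e, he⟩ : ∃ e : Fin 2 → ℚ, (x * y) *ᵥ e ≠ 0 := by
    by_contra hcon
    push Not at hcon
    apply hne
    ext i j
    have h4 := congrFun (hcon (Pi.single j 1)) i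
    rw [Matrix.mulVec_single_one] at h4
    exact h4
  refine ⟨Matrix.of fun i j => if j = 0 then ((x * y) *ᵥ e) i else (y *ᵥ e) i, fun h => ?_, ?_, ?_⟩
  · apply he
    funext i
    have h4 := congrFun (congrFun h i) 0
    simpa using h4
  · have e1 : x *ᵥ ((x * y) *ᵥ e) = 0 := by
      rw [Matrix.mulVec_mulVec, ← mul_assoc, hxx, zero_mul, Matrix.zero_mulVec]
    have e2 : x *ᵥ (y *ᵥ e) = (x * y) *ᵥ e := by rw [Matrix.mulVec_mulVec]
    ext i j
    have e3 := congrFun e1 i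
    have e4 := congrFun e2 i
    simp only [Matrix.mulVec, dotProduct, Fin.sum_univ_two] at e3 e4
    fin_cases j
    · simp [Matrix.mul_apply, Fin.sum_univ_two, E, Matrix.mulVec, dotProduct] at e3 ⊢
      linarith
    · simp [Matrix.mul_apply, Fin.sum_univ_two, E, Matrix.mulVec, dotProduct] at e4 ⊢
      linarith
  · have e1 : y *ᵥ (y *ᵥ e) = 0 := by
      rw [Matrix.mulVec_mulVec, hyy, Matrix.zero_mulVec]
    have e2 : y *ᵥ ((x * y) *ᵥ e) = y *ᵥ e := by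
      have h5 : y * (x * y) = y := by
        calc y * (x * y) = (x * y + y * x) * y - x * (y * y) := by noncomm_ring
          _ = y := by rw [hxy, hyy, mul_zero, sub_zero, one_mul]
      rw [Matrix.mulVec_mulVec, h5]
    ext i j
    have e3 := congrFun e1 i
    have e4 := congrFun e2 i
    simp only [Matrix.mulVec, dotProduct, Fin.sum_univ_two] at e3 e4
    fin_cases j
    · simp [Matrix.mul_apply, Fin.sum_univ_two, F, Matrix.mulVec, dotProduct] at e4 ⊢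
      linarith
    · simp [Matrix.mul_apply, Fin.sum_univ_two, F, Matrix.mulVec, dotProduct] at e3 ⊢
      linarith

/-- Two components. -/
theorem Gd.pair (h : Gd 𝔥 N) {c d : C} (hc : c ∈ N) (hcd : c ≠ d) {x : M2} (hx : tz x) :
    ∃ ξ ∈ 𝔥, ξ c = x ∧ ξ d = 0 := by
  by_cases hI : ∃ x₀ ∈ Ic 𝔥 c d, x₀ ≠ 0
  · obtain ⟨x₀, h₀, hne⟩ := hI
    exact h.Ic_top hc h₀ hne hx
  push Not at hI
  exfalso
  by_cases hd : d ∈ N
  · by_cases hJ : ∃ x₀ ∈ Ic 𝔥 d c, x₀ ≠ 0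
    · obtain ⟨x₀, h₀, hne⟩ := hJ
      obtain ⟨ξ, hξ, h1⟩ := h.surj hc tz_E
      obtain ⟨η, hη, h2, h3⟩ := h.Ic_top hd h₀ hne (h.tr ξ hξ d)
      refine E_ne (hI E ⟨ξ - η, 𝔥.sub_mem hξ hη, ?_, ?_⟩)
      · rw [Pi.sub_apply, h1, h3, sub_zero]
      · rw [Pi.sub_apply, h2, sub_self]
    push Not at hJ
    have k1 : ∀ ξ ∈ 𝔥, ξ d = 0 → ξ c = 0 := fun ξ hξ h1 => hI _ ⟨ξ, hξ, rfl, h1⟩
    have k2 : ∀ ξ ∈ 𝔥, ξ c = 0 → ξ d = 0 := fun ξ hξ h1 => hJ _ ⟨ξ, hξ, rfl, h1⟩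
    have hsq : ∀ ξ ∈ 𝔥, sp (ξ c) (ξ c) = sp (ξ d) (ξ d) := by
      intro ξ hξ
      by_cases h0 : ξ d = 0
      · rw [k1 ξ hξ h0, h0]
      · obtain ⟨y, hy, hy0⟩ := exists_lb (h.tr ξ hξ d) h0
        obtain ⟨η, hη, rfl⟩ := h.surj hd hy
        have b1 := h.br ξ hξ _ (h.br ξ hξ _ (h.br ξ hξ η hη))
        have b2 := 𝔥.sub_mem b1 (𝔥.smul_mem (2 * sp (ξ c) (ξ c)) (h.br ξ hξ η hη))
        have b3 := k2 _ b2 (by
          change lb (ξ c) (lb (ξ c) (lb (ξ c) (η c))) - (2 * sp (ξ c) (ξ c)) •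
            lb (ξ c) (η c) = 0
          rw [ad3 (h.tr ξ hξ c) (h.tr η hη c), sub_self])
        change lb (ξ d) (lb (ξ d) (lb (ξ d) (η d))) - (2 * sp (ξ c) (ξ c)) •
            lb (ξ d) (η d) = 0 at b3
        rw [ad3 (h.tr ξ hξ d) (h.tr η hη d), ← sub_smul] at b3
        have b4 := (smul_eq_zero.1 b3).resolve_right hy0
        linarith
    have hpol : ∀ ξ ∈ 𝔥, ∀ η ∈ 𝔥, sp (ξ c) (η c) = sp (ξ d) (η d) := by
      intro ξ hξ η hη
      have b1 := hsq _ (𝔥.add_mem hξ hη)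
      have b2 := hsq ξ hξ
      have b3 := hsq η hη
      rw [Pi.add_apply, Pi.add_apply, sp_add_left, sp_add_right, sp_add_right, sp_add_left,
        sp_add_right, sp_add_right] at b1
      have b4 := sp_comm (ξ c) (η c)
      have b5 := sp_comm (ξ d) (η d)
      linarith
    obtain ⟨e, he, he1⟩ := h.surj hc tz_E
    obtain ⟨f, hf, hf1⟩ := h.surj hc tz_F
    have g1 : sp (e d) (e d) = 0 := by
      rw [← hpol e he e he, he1]
      simp [sp, E]
    have g2 : sp (f d) (f d) = 0 := by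
      rw [← hpol f hf f hf, hf1]
      simp [sp, F]
    have g3 : sp (e d) (f d) = 1 := by
      rw [← hpol e he f hf, he1, hf1]
      simp [sp, E, F]
    obtain ⟨P, hP0, hPE, hPF⟩ := exists_P (h.tr e he d) (h.tr f hf d) g1 g2 g3
    refine hP0 (h.ho c hc d hd hcd P fun ξ hξ => ?_)
    have hPH : P * Hh = lb (e d) (f d) * P := by
      rw [← lb_EF]
      unfold lb
      rw [mul_sub, sub_mul, ← mul_assoc, ← mul_assoc, hPE, hPF, mul_assoc, hPF, mul_assoc, hPE,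
        mul_assoc, mul_assoc]
    have hξ1 := eq_EFH (h.tr ξ hξ c)
    have b1 := 𝔥.sub_mem hξ (𝔥.add_mem (𝔥.add_mem (𝔥.smul_mem (ξ c 0 1) he)
      (𝔥.smul_mem (ξ c 1 0) hf)) (𝔥.smul_mem (ξ c 0 0) (h.br e he f hf)))
    have b2 := k2 _ b1 (by
      change ξ c - (ξ c 0 1 • e c + ξ c 1 0 • f c + ξ c 0 0 • lb (e c) (f c)) = 0
      rw [he1, hf1, lb_EF, ← hξ1, sub_self])
    change ξ d - (ξ c 0 1 • e d + ξ c 1 0 • f d + ξ c 0 0 • lb (e d) (f d)) = 0 at b2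
    rw [sub_eq_zero] at b2
    rw [b2]
    conv_lhs => rw [hξ1]
    rw [mul_add, mul_add, add_mul, add_mul, mul_smul_comm, mul_smul_comm, mul_smul_comm,
      smul_mul_assoc, smul_mul_assoc, smul_mul_assoc, hPE, hPF, hPH]
  · obtain ⟨e, he, he1⟩ := h.surj hc tz_E
    obtain ⟨f, hf, hf1⟩ := h.surj hc tz_F
    refine H_ne (hI Hh ⟨_, h.br e he f hf, ?_, h.cm d hd e he f hf⟩)
    change lb (e c) (f c) = Hh
    rw [he1, hf1, lb_EF]

theorem lb_HE : lb Hh E = (2 : ℚ) • E := by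
  ext i j
  fin_cases i <;> fin_cases j <;> simp [lb, E, Hh]
  norm_num

theorem lb_HF : lb Hh F = (-2 : ℚ) • F := by
  ext i j
  fin_cases i <;> fin_cases j <;> simp [lb, F, Hh]
  norm_num

theorem Gd.many (h : Gd 𝔥 N) {c : C} (hc : c ∈ N) (D : Finset C) (hD : c ∉ D) :
    ∀ x, tz x → ∃ ξ ∈ 𝔥, ξ c = x ∧ ∀ d ∈ D, ξ d = 0 := by
  classical
  induction D using Finset.induction_on with
  | empty =>
    intro x hx
    obtain ⟨ξ, hξ, h1⟩ := h.surj hc hx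
    exact ⟨ξ, hξ, h1, fun d hd => absurd hd (Finset.notMem_empty d)⟩
  | insert d D hdD ih =>
    have hcd : c ≠ d := fun e => hD (e ▸ Finset.mem_insert_self _ _)
    have ih' := ih (fun e => hD (Finset.mem_insert_of_mem e))
    have key : ∀ x y, tz x → tz y → ∃ ξ ∈ 𝔥, ξ c = lb x y ∧ ∀ d' ∈ insert d D, ξ d' = 0 := by
      intro x y hx hy
      obtain ⟨ξ, hξ, h1, h2⟩ := ih' x hx
      obtain ⟨η, hη, h3, h4⟩ := h.pair hc hcd hy
      refine ⟨_, h.br ξ hξ η hη, ?_, fun d' hd' => ?_⟩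
      · change lb (ξ c) (η c) = _
        rw [h1, h3]
      · change lb (ξ d') (η d') = 0
        rcases Finset.mem_insert.1 hd' with rfl | hd'
        · rw [h4]
          simp [lb]
        · rw [h2 d' hd']
          simp [lb]
    intro x hx
    obtain ⟨e, he, e1, e2⟩ := key Hh E tz_H tz_E
    obtain ⟨f, hf, f1, f2⟩ := key Hh F tz_H tz_F
    obtain ⟨k, hk, k1, k2⟩ := key E F tz_E tz_F
    rw [lb_HE] at e1
    rw [lb_HF] at f1
    rw [lb_EF] at k1
    refine ⟨(x 0 1 / 2) • e + (-(x 1 0) / 2) • f + x 0 0 • k, 𝔥.add_mem (𝔥.add_mem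
      (𝔥.smul_mem _ he) (𝔥.smul_mem _ hf)) (𝔥.smul_mem _ hk), ?_, fun d' hd' => ?_⟩
    · rw [Pi.add_apply, Pi.add_apply, Pi.smul_apply, Pi.smul_apply, Pi.smul_apply, e1, f1, k1,
        smul_smul, smul_smul]
      conv_rhs => rw [eq_EFH hx]
      congr 2
      · congr 1
        · congr 1
          ring
      · congr 1
        ring
    · rw [Pi.add_apply, Pi.add_apply, Pi.smul_apply, Pi.smul_apply, Pi.smul_apply, e2 d' hd',
        f2 d' hd', k2 d' hd', smul_zero, smul_zero, smul_zero, add_zero, add_zero]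

/-- **The theorem of Goursat type.** -/
theorem Gd.single (h : Gd 𝔥 N) {c : C} (hc : c ∈ N) {x : M2} (hx : tz x) :
    ∃ ξ ∈ 𝔥, ξ c = x ∧ ∀ d, d ≠ c → ξ d = 0 := by
  classical
  have := Fintype.ofFinite C
  obtain ⟨ξ, hξ, h1, h2⟩ := h.many hc (Finset.univ.erase c) (Finset.notMem_erase _ _) x hx
  exact ⟨ξ, hξ, h1, fun d hd => h2 d (Finset.mem_erase.2 ⟨hd, Finset.mem_univ _⟩)⟩

end Pool.Agent.R917.EC
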