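import Pool.Agent.R917.ExpGrp

set_option autoImplicit false
set_option linter.unusedSectionVars false
set_option linter.unusedSimpArgs false

/-!
# Replicas of diagonalizable elements of the Lie algebra of an algebraic group
-/

open Matrix Finset

namespace Pool.Agent.R917.EC

open Pool.Agent.TH119.MX Pool.Agent.TH119.DR Pool.Agent.W437.HK

section general

variable {α : Type*} [Fintype α]

theorem mul_stable (U : Submodule ℂ (α → ℂ)) (m : α → ℂ)
    (hU : ∀ c ∈ U, (fun I => m I * c I) ∈ U) (p : Polynomial ℂ) :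
    ∀ c ∈ U, (fun I => p.eval (m I) * c I) ∈ U := by
  induction p using Polynomial.induction_on with
  | C a =>
    intro c hc
    have h1 := U.smul_mem a hc
    convert h1 using 1
    funext I
    simp
  | add p q hp hq =>
    intro c hc
    have h1 := U.add_mem (hp c hc) (hq c hc)
    convert h1 using 1
    funext I
    simp [add_mul]
  | monomial n a h =>
    intro c hc
    have h1 := hU _ (h c hc)
    convert h1 using 1
    funext I
    simp [pow_succ]
    ring

theorem replica_mul (U : Submodule ℂ (α → ℂ)) (m : α → ℂ) (σ : ℂ → ℂ)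
    (hU : ∀ c ∈ U, (fun I => m I * c I) ∈ U) : ∀ c ∈ U, (fun I => σ (m I) * c I) ∈ U := by
  classical
  intro c hc
  have h1 := mul_stable U m hU (Lagrange.interpolate (Finset.univ.image m) id σ) c hc
  convert h1 using 1
  funext I
  congr 1
  have h2 : m I ∈ Finset.univ.image m := Finset.mem_image_of_mem m (Finset.mem_univ I)
  have h3 := Lagrange.eval_interpolate_at_node (s := Finset.univ.image m) (v := id) σ
    (Function.injective_id.injOn) h2
  exact h3.symm

end general

variable {R κ T : Type} [Fintype R] [DecidableEq R] [Fintype κ] [DecidableEq κ] [Fintype T]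
  [DecidableEq T]

theorem act_diagonal {S : Type} [Fintype S] [DecidableEq S] (δ : S → ℂ) (c : (κ → S) → ℂ) :
    act (Matrix.diagonal δ) c = fun I => (∑ k, δ (I k)) * c I := by
  funext I
  unfold act
  rw [Finset.sum_mul]
  refine Finset.sum_congr rfl fun k _ => ?_
  rw [Finset.sum_eq_single (I k)]
  · rw [Matrix.diagonal_apply_eq, Function.update_eq_self]
  · intro j _ hj
    rw [Matrix.diagonal_apply_ne _ hj, zero_mul]
  · intro h
    exact absurd (Finset.mem_univ _) h

theorem replica_act {X Y : Matrix R R ℂ} {ρ : T → Matrix R R ℂ} {δ : T → ℂ} (σ : ℂ →+ ℂ)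
    (h1 : ∑ t, ρ t = 1) (hX : ∀ t, ρ t * X = δ t • ρ t) (hY : ∀ t, ρ t * Y = σ (δ t) • ρ t)
    (U : Submodule ℂ ((κ → R) → ℂ)) (hU : ∀ w ∈ U, act X w ∈ U) : ∀ w ∈ U, act Y w ∈ U := by
  let E : Matrix (T × R) R ℂ := Matrix.of fun p r => ρ p.1 p.2 r
  let F : Matrix R (T × R) ℂ := Matrix.of fun r p => if r = p.2 then 1 else 0
  have hFE : F * E = 1 := by
    ext r r'
    rw [Matrix.mul_apply, Fintype.sum_prod_type, ← h1, Matrix.sum_apply]
    refine Finset.sum_congr rfl fun t _ => ?_
    rw [Finset.sum_eq_single r]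
    · simp [E, F]
    · intro j _ hj
      simp [E, F, hj.symm]
    · intro h
      exact absurd (Finset.mem_univ _) h
  have hEX : ∀ (Z : Matrix R R ℂ) (ε : T → ℂ), (∀ t, ρ t * Z = ε t • ρ t) →
      E * Z = Matrix.diagonal (fun p : T × R => ε p.1) * E := by
    intro Z ε h
    ext p r
    rw [Matrix.diagonal_mul]
    have h2 := congrFun (congrFun (h p.1) p.2) r
    rw [Matrix.smul_apply, smul_eq_mul] at h2
    exact h2
  have e1 := hEX X δ hX
  have e2 := hEX Y (fun t => σ (δ t)) hY
  have hst : ∀ c ∈ U.comap (pullL E), act (Matrix.diagonal (fun p : T × R => δ p.1)) c ∈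
      U.comap (pullL E) := by
    intro c hc
    rw [Submodule.mem_comap, pullL_apply] at hc ⊢
    rw [← act_pull e1]
    exact hU _ hc
  intro w hw
  have hw1 : w = pull E (pull F w) := by rw [pull_pull, hFE, pull_one]
  have hw2 : pull F w ∈ U.comap (pullL E) := by
    rw [Submodule.mem_comap, pullL_apply, ← hw1]
    exact hw
  have h3 := replica_mul (U.comap (pullL E)) (fun I : κ → T × R => ∑ k, δ (I k).1) σ
    (fun c hc => by
      have h4 := hst c hc
      rwa [act_diagonal] at h4) _ hw2
  rw [hw1, act_pull e2, act_diagonal]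
  rw [Submodule.mem_comap, pullL_apply] at h3
  convert h3 using 2
  funext I
  rw [map_sum]

variable {B : Type} [Fintype B] [DecidableEq B] {H : Set (Matrix B B ℂ)}

theorem LL_sum (s : Finset T) (π : T → Matrix B B ℂ) : LL (∑ t ∈ s, π t) = ∑ t ∈ s, LL (π t) := by
  induction s using Finset.induction_on with
  | empty => rw [Finset.sum_empty, Finset.sum_empty, LL_zero]
  | insert a s ha ih => rw [Finset.sum_insert ha, Finset.sum_insert ha, LL_add, ih]

theorem stab_replica {X Y : Matrix B B ℂ} {π : T → Matrix B B ℂ} {δ : T → ℂ} (σ : ℂ →+ ℂ)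
    (h1 : ∑ t, π t = 1) (hX : ∀ t, X * π t = δ t • π t) (hY : ∀ t, Y * π t = σ (δ t) • π t)
    {k : ℕ} (hS : Stab H k X) : Stab H k Y := by
  let ρ : Option T → Matrix (Option (B × B)) (Option (B × B)) ℂ :=
    fun o => o.elim (1 - LL 1) (fun t => LL (π t))
  let ε : Option T → ℂ := fun o => o.elim 0 δ
  have h2 : ∑ o, ρ o = 1 := by
    rw [Fintype.sum_option]
    change (1 - LL 1) + ∑ t, LL (π t) = 1
    rw [← LL_sum, h1, sub_add_cancel]
  have h3 : ∀ (Z : Matrix B B ℂ) (ε' : T → ℂ), (∀ t, Z * π t = ε' t • π t) → ∀ o,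
      ρ o * LL Z = (o.elim 0 ε' : ℂ) • ρ o := by
    intro Z ε' h o
    rcases o with _ | t
    · change (1 - LL 1) * LL Z = (0 : ℂ) • _
      rw [zero_smul, Matrix.sub_mul, Matrix.one_mul, LL_mul_LL, Matrix.mul_one, sub_self]
    · change LL (π t) * LL Z = ε' t • LL (π t)
      rw [LL_mul_LL, h, LL_smul]
  refine replica_act σ h2 (h3 X δ hX) (fun o => ?_) (Wt H k) hS
  rw [h3 Y _ hY o]
  rcases o with _ | t
  · change (0 : ℂ) • _ = σ 0 • _
    rw [map_zero]
  · rfl

theorem aeval_mul_eig {M P : Matrix B B ℂ} {a : ℂ} (h : M * P = a • P) (q : Polynomial ℂ) :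
    Polynomial.aeval M q * P = q.eval a • P := by
  induction q using Polynomial.induction_on with
  | C b =>
    rw [Polynomial.aeval_C, Polynomial.eval_C, Algebra.algebraMap_eq_smul_one, smul_mul_assoc,
      one_mul]
  | add p q hp hq => rw [map_add, add_mul, hp, hq, Polynomial.eval_add, add_smul]
  | monomial n b ih =>
    rw [pow_succ, ← mul_assoc, map_mul, Polynomial.aeval_X, mul_assoc, h, mul_smul_comm, ih,
      smul_smul]
    congr 1
    simp only [Polynomial.eval_mul, Polynomial.eval_X]
    ring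

theorem lagrange_eig {s : Finset ℂ} {M : Matrix B B ℂ}
    (hM : Polynomial.aeval M (Lagrange.nodal s id) = 0) {a : ℂ} (ha : a ∈ s) :
    M * Polynomial.aeval M (Lagrange.basis s id a) =
      a • Polynomial.aeval M (Lagrange.basis s id a) := by
  have h1 : (Polynomial.X - Polynomial.C a) * Lagrange.basis s id a =
      Polynomial.C (Lagrange.nodalWeight s id a) * Lagrange.nodal s id := by
    rw [Lagrange.basis_eq_prod_sub_inv_mul_nodal_div ha, ← Lagrange.nodal_erase_eq_nodal_div ha,
      Lagrange.nodal_eq_mul_nodal_erase ha]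
    simp only [id]
    ring
  have h2 := congrArg (Polynomial.aeval M) h1
  rw [map_mul, map_mul, hM, mul_zero, map_sub, Polynomial.aeval_X, Polynomial.aeval_C, sub_mul,
    sub_eq_zero, Algebra.algebraMap_eq_smul_one, smul_mul_assoc, one_mul] at h2
  exact h2

/-- **Replicas.** -/
theorem stab_aeval {s : Finset ℂ} (hs : s.Nonempty) {M : Matrix B B ℂ}
    (hM : Polynomial.aeval M (Lagrange.nodal s id) = 0) (σ : ℂ →+ ℂ) {Q : Polynomial ℂ}
    (hQ : ∀ a ∈ s, Q.eval a = σ a) {k : ℕ} (hS : Stab H k M) :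
    Stab H k (Polynomial.aeval M Q) := by
  classical
  refine stab_replica (T := s) (π := fun a => Polynomial.aeval M (Lagrange.basis s id (a : ℂ)))
    (δ := fun a => (a : ℂ)) σ ?_ (fun a => lagrange_eig hM a.2) (fun a => ?_) hS
  · rw [← map_sum, Finset.sum_coe_sort s (fun a => Lagrange.basis s id a),
      Lagrange.sum_basis Function.injective_id.injOn hs, map_one]
  · rw [aeval_mul_eig (lagrange_eig hM a.2), hQ _ a.2]

end Pool.Agent.R917.EC
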